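import Mathlib

/-!
Graph notions used in the proof that bull-free graphs are perfect-Pollyanna.
-/

namespace BullPD

variable {V : Type*}

/-- bull-free: if `x y t` is a triangle, `u` is adjacent to `x` only and `v` to `y` only
(among `x, y, t`), then `u` and `v` are adjacent -/
def BullFree (G : SimpleGraph V) : Prop :=
  ∀ x y t u v : V, G.Adj x y → G.Adj x t → G.Adj y t → G.Adj u x → G.Adj v y →
    ¬ G.Adj u y → ¬ G.Adj u t → ¬ G.Adj v x → ¬ G.Adj v t → G.Adj u v

/-- `a b c d` is an induced path on four vertices (distinctness is automatic) -/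
def IsP4 (G : SimpleGraph V) (a b c d : V) : Prop :=
  G.Adj a b ∧ G.Adj b c ∧ G.Adj c d ∧ ¬ G.Adj a c ∧ ¬ G.Adj b d ∧ ¬ G.Adj a d

/-- no vertex is complete to an induced path on four vertices -/
def GemFree (G : SimpleGraph V) : Prop :=
  ∀ z a b c d : V, IsP4 G a b c d → G.Adj z a → G.Adj z b → G.Adj z c → G.Adj z d → False

/-- `v` is complete to `H` -/
def CompTo (G : SimpleGraph V) (v : V) (H : Set V) : Prop := ∀ x ∈ H, G.Adj v x

/-- `v` is anticomplete to `H` -/
def AntiTo (G : SimpleGraph V) (v : V) (H : Set V) : Prop := ∀ x ∈ H, ¬ G.Adj v x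

/-- `G[I]` is prime: the only homogeneous set with at least two vertices is `I` itself -/
def PrimeOn (G : SimpleGraph V) (I : Set V) : Prop :=
  ∀ H : Set V, H ⊆ I → H.Nontrivial →
    (∀ v ∈ I, v ∉ H → CompTo G v H ∨ AntiTo G v H) → H = I

/-- `G` is prime -/
def PrimeG (G : SimpleGraph V) : Prop :=
  ∀ H : Set V, H.Nontrivial → (∀ v, v ∉ H → CompTo G v H ∨ AntiTo G v H) → H = Set.univ

/-- `G[I]` is bipartite -/
def BipOn (G : SimpleGraph V) (I : Set V) : Prop :=
  ∃ P : V → Prop, ∀ x ∈ I, ∀ y ∈ I, G.Adj x y → ¬ (P x ↔ P y)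

/-- `G[I]` is connected (or empty), in the form used below -/
def ConnOn (G : SimpleGraph V) (I : Set V) : Prop :=
  ∀ H : Set V, H ⊆ I → H.Nonempty → (∀ x ∈ H, ∀ y ∈ I, G.Adj x y → y ∈ H) → H = I

/-- the complement of `G[I]` is connected (or empty) -/
def CoConnOn (G : SimpleGraph V) (I : Set V) : Prop :=
  ∀ H : Set V, H ⊆ I → H.Nonempty → (∀ x ∈ H, ∀ y ∈ I, x ≠ y → ¬ G.Adj x y → y ∈ H) → H = I

/-- `I` is stable -/
def StabOn (G : SimpleGraph V) (I : Set V) : Prop := ∀ x ∈ I, ∀ y ∈ I, ¬ G.Adj x y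

/-- `G[I]` is triangle-free -/
def TriFreeOn (G : SimpleGraph V) (I : Set V) : Prop :=
  ∀ x ∈ I, ∀ y ∈ I, ∀ z ∈ I, G.Adj x y → G.Adj y z → G.Adj x z → False

end BullPD
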