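import Pool.Agent.H8.BullGem1

/-!
Steps (4a)-(4f): a path on four vertices with a centre in a prime bull-free graph in which every
non-neighbourhood contains a prime non-bipartite set.
-/

namespace BullPD

variable {V : Type*} {G : SimpleGraph V}

/-- neighbourhoods in a prime set with an anticentre: complete or stable -/
theorem nbr_stable (hbf : BullFree G) {I : Set V} (hI : PrimeOn G I) {z p : V}
    (hz : AntiTo G z I) (hpz : G.Adj p z) :
    CompTo G p I ∨ ∀ x ∈ I, ∀ y ∈ I, G.Adj p x → G.Adj p y → ¬ G.Adj x y := by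
  by_cases hst : ∀ x ∈ I, ∀ y ∈ I, G.Adj p x → G.Adj p y → ¬ G.Adj x y
  · exact Or.inr hst
  · left
    push Not at hst
    obtain ⟨h1, hh1, h2, hh2, hp1, hp2, h12⟩ := hst
    let C : Set V := {y | Relation.ReflTransGen (fun a b => G.Adj a b ∧ (b ∈ I ∧ G.Adj p b)) h1 y}
    have hC1 : h1 ∈ C := Relation.ReflTransGen.refl
    have hC2 : h2 ∈ C := Relation.ReflTransGen.single ⟨h12, hh2, hp2⟩
    have hCN : ∀ y ∈ C, y ∈ I ∧ G.Adj p y := by
      intro y hy
      induction hy with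
      | refl => exact ⟨hh1, hp1⟩
      | tail _ h _ => exact h.2
    have hCI : C = I := by
      apply hI C (fun y hy => (hCN y hy).1) ⟨h1, hC1, h2, hC2, h12.ne⟩
      intro v hv hvC
      by_cases hpv : G.Adj p v
      · right
        intro y hy hvy
        exact hvC (Relation.ReflTransGen.tail hy ⟨hvy.symm, hv, hpv⟩)
      · have key : ∀ y ∈ C, ∀ y' ∈ C, G.Adj y y' → G.Adj v y → G.Adj v y' := by
          intro y hy y' hy' hyy hvy
          by_contra hvy'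
          exact hpv (bull_a hbf hyy (hCN y hy).2 (hCN y' hy').2 hpz (hz y (hCN y hy).1)
            (hz y' (hCN y' hy').1) (hz v hv) hvy hvy')
        have hall : ∀ y ∈ C, (G.Adj v h1 ↔ G.Adj v y) := by
          intro y hy
          induction hy with
          | refl => exact Iff.rfl
          | tail hab hbc ih =>
            rename_i b c
            have hbC : b ∈ C := hab
            have hcC : c ∈ C := Relation.ReflTransGen.tail hab hbc
            exact ih.trans ⟨key b hbC c hcC hbc.1, key c hcC b hbC hbc.1.symm⟩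
        by_cases hv1 : G.Adj v h1
        · left
          intro y hy
          exact (hall y hy).1 hv1
        · right
          intro y hy hvy
          exact hv1 ((hall y hy).2 hvy)
    intro y hy
    rw [← hCI] at hy
    exact (hCN y hy).2

/-- a prime graph is connected -/
theorem PrimeG.conn (hpr : PrimeG G) {T : Set V} (hne : T.Nonempty)
    (hT : ∀ x ∈ T, ∀ y, y ∉ T → ¬ G.Adj x y) {p q : V} (hpq : p ≠ q) (hp : p ∉ T) (hq : q ∉ T) :
    False := by
  have h := hpr Tᶜ ⟨p, hp, q, hq, hpq⟩ (by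
    intro v hv
    right
    intro y hy
    have hvT : v ∈ T := by simpa using hv
    exact hT v hvT y hy)
  obtain ⟨x, hx⟩ := hne
  have : x ∈ Tᶜ := by rw [h]; trivial
  exact this hx

/-- the hypotheses on `G` used in Step 4 (except the reducibility) -/
structure GCtx (G : SimpleGraph V) : Prop where
  hbf : BullFree G
  hpr : PrimeG G
  hI : ∀ v : V, ∃ I : Set V, (∀ x ∈ I, x ≠ v ∧ ¬ G.Adj v x) ∧ PrimeOn G I ∧ ¬ BipOn G I ∧
    ∀ z, ¬ CompTo G z I
  hCD : ∀ p1 p2 p3 p4 x z : V, IsP4 G p1 p2 p3 p4 → G.Adj x p1 → ¬ G.Adj x p2 → ¬ G.Adj x p3 →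
    G.Adj x p4 → Cen G p1 p2 p3 p4 z → ¬ G.Adj z x
  hL0 : ∀ H : Set V, H.Nontrivial → ConnOn G H → CoConnOn G H → (∃ z, CompTo G z H) →
    (∃ a, a ∉ H ∧ AntiTo G a H) → ∃ x z a, x ∉ H ∧ ¬ CompTo G x H ∧ ¬ AntiTo G x H ∧
      CompTo G z H ∧ a ∉ H ∧ AntiTo G a H ∧ ¬ G.Adj x z ∧ G.Adj x a

section P4

variable {p1 p2 p3 p4 : V}

/-- (4a) there is an anticentre -/
theorem exists_ant (hc : GCtx G) (hP : IsP4 G p1 p2 p3 p4) {z : V}
    (hz : Cen G p1 p2 p3 p4 z) : ∃ a, Ant G p1 p2 p3 p4 a := by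
  obtain ⟨I, hIz, hIp, hIb, hIn⟩ := hc.hI z
  have hzA : AntiTo G z I := fun x hx => (hIz x hx).2
  by_contra hno
  push Not at hno
  have hst : ∀ p, G.Adj z p → ∀ x ∈ I, ∀ y ∈ I, G.Adj p x → G.Adj p y → ¬ G.Adj x y := by
    intro p hzp
    rcases nbr_stable hc.hbf hIp hzA hzp.symm with h | h
    · exact absurd h (hIn p)
    · exact h
  apply hIb
  refine ⟨fun x => G.Adj x p1, ?_⟩
  intro x hx y hy hxy
  have hxz : ¬ G.Adj x z := fun h => hzA x hx h.symm
  have hyz : ¬ G.Adj y z := fun h => hzA y hy h.symm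
  have ax1 := alpha12 hc.hbf hP hz hxz
  have ax2 := alpha34 hc.hbf hP hz hxz
  have ay1 := alpha12 hc.hbf hP hz hyz
  have ay2 := alpha34 hc.hbf hP hz hyz
  have nx := hno x
  have ny := hno y
  unfold Ant at nx ny
  have s1 : ¬ (G.Adj x p1 ∧ G.Adj y p1) := fun h => hst p1 hz.1 x hx y hy h.1.symm h.2.symm hxy
  have s2 : ¬ (G.Adj x p2 ∧ G.Adj y p2) := fun h => hst p2 hz.2.1 x hx y hy h.1.symm h.2.symm hxy
  have s3 : ¬ (G.Adj x p3 ∧ G.Adj y p3) :=
    fun h => hst p3 hz.2.2.1 x hx y hy h.1.symm h.2.symm hxy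
  have s4 : ¬ (G.Adj x p4 ∧ G.Adj y p4) :=
    fun h => hst p4 hz.2.2.2 x hx y hy h.1.symm h.2.symm hxy
  show ¬ (G.Adj x p1 ↔ G.Adj y p1)
  generalize G.Adj x p1 = e1 at *
  generalize G.Adj x p2 = e2 at *
  generalize G.Adj x p3 = e3 at *
  generalize G.Adj x p4 = e4 at *
  generalize G.Adj y p1 = f1 at *
  generalize G.Adj y p2 = f2 at *
  generalize G.Adj y p3 = f3 at *
  generalize G.Adj y p4 = f4 at *
  clear hno hz hst hxz hyz
  by_cases h1 : e1 <;> by_cases h2 : e2 <;> by_cases h3 : e3 <;> by_cases h4 : e4 <;>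
    simp_all

/-- the vertices of the path (as a set) -/
def PS (p1 p2 p3 p4 : V) : Set V := {p1, p2, p3, p4}

theorem PS_conn (hP : IsP4 G p1 p2 p3 p4) : ConnOn G (PS p1 p2 p3 p4) := by
  obtain ⟨h12, h23, h34, h13, h24, h14⟩ := hP
  intro H hH hne hcl
  have m1 : p1 ∈ PS p1 p2 p3 p4 := by simp [PS]
  have m2 : p2 ∈ PS p1 p2 p3 p4 := by simp [PS]
  have m3 : p3 ∈ PS p1 p2 p3 p4 := by simp [PS]
  have m4 : p4 ∈ PS p1 p2 p3 p4 := by simp [PS]
  have k12 : p1 ∈ H → p2 ∈ H := fun h => hcl _ h _ m2 h12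
  have k21 : p2 ∈ H → p1 ∈ H := fun h => hcl _ h _ m1 h12.symm
  have k23 : p2 ∈ H → p3 ∈ H := fun h => hcl _ h _ m3 h23
  have k32 : p3 ∈ H → p2 ∈ H := fun h => hcl _ h _ m2 h23.symm
  have k34 : p3 ∈ H → p4 ∈ H := fun h => hcl _ h _ m4 h34
  have k43 : p4 ∈ H → p3 ∈ H := fun h => hcl _ h _ m3 h34.symm
  obtain ⟨x, hx⟩ := hne
  have hx' := hH hx
  have all : p1 ∈ H ∧ p2 ∈ H ∧ p3 ∈ H ∧ p4 ∈ H := by
    simp only [PS, Set.mem_insert_iff, Set.mem_singleton_iff] at hx'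
    rcases hx' with rfl | rfl | rfl | rfl <;> tauto
  apply Set.Subset.antisymm hH
  intro y hy
  simp only [PS, Set.mem_insert_iff, Set.mem_singleton_iff] at hy
  rcases hy with rfl | rfl | rfl | rfl <;> tauto

theorem PS_coconn (hP : IsP4 G p1 p2 p3 p4) : CoConnOn G (PS p1 p2 p3 p4) := by
  obtain ⟨h12, h23, h34, h13, h24, h14⟩ := hP
  intro H hH hne hcl
  have m1 : p1 ∈ PS p1 p2 p3 p4 := by simp [PS]
  have m2 : p2 ∈ PS p1 p2 p3 p4 := by simp [PS]
  have m3 : p3 ∈ PS p1 p2 p3 p4 := by simp [PS]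
  have m4 : p4 ∈ PS p1 p2 p3 p4 := by simp [PS]
  have n13 : p1 ≠ p3 := by rintro rfl; exact h14 h34
  have n14 : p1 ≠ p4 := by rintro rfl; exact h24 h12.symm
  have n24 : p2 ≠ p4 := by rintro rfl; exact h14 h12
  have k13 : p1 ∈ H → p3 ∈ H := fun h => hcl _ h _ m3 n13 h13
  have k31 : p3 ∈ H → p1 ∈ H := fun h => hcl _ h _ m1 n13.symm (by first | assumption | (rw [SimpleGraph.adj_comm]; assumption))
  have k14 : p1 ∈ H → p4 ∈ H := fun h => hcl _ h _ m4 n14 h14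
  have k41 : p4 ∈ H → p1 ∈ H := fun h => hcl _ h _ m1 n14.symm (by first | assumption | (rw [SimpleGraph.adj_comm]; assumption))
  have k24 : p2 ∈ H → p4 ∈ H := fun h => hcl _ h _ m4 n24 h24
  have k42 : p4 ∈ H → p2 ∈ H := fun h => hcl _ h _ m2 n24.symm (by first | assumption | (rw [SimpleGraph.adj_comm]; assumption))
  obtain ⟨x, hx⟩ := hne
  have hx' := hH hx
  have all : p1 ∈ H ∧ p2 ∈ H ∧ p3 ∈ H ∧ p4 ∈ H := by
    simp only [PS, Set.mem_insert_iff, Set.mem_singleton_iff] at hx'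
    rcases hx' with rfl | rfl | rfl | rfl <;> tauto
  apply Set.Subset.antisymm hH
  intro y hy
  simp only [PS, Set.mem_insert_iff, Set.mem_singleton_iff] at hy
  rcases hy with rfl | rfl | rfl | rfl <;> tauto

theorem compTo_PS {v : V} : CompTo G v (PS p1 p2 p3 p4) ↔ Cen G p1 p2 p3 p4 v := by
  simp [CompTo, PS, Cen]

theorem antiTo_PS {v : V} : AntiTo G v (PS p1 p2 p3 p4) ↔ Ant G p1 p2 p3 p4 v := by
  simp [AntiTo, PS, Ant]

/-- the vertices of pattern `1001` -/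
def PE (G : SimpleGraph V) (a b c d x : V) : Prop :=
  G.Adj x a ∧ ¬ G.Adj x b ∧ ¬ G.Adj x c ∧ G.Adj x d

/-- (4c) a vertex of pattern `1001` adjacent to an anticentre and not to a centre -/
theorem exists_PE (hc : GCtx G) (hP : IsP4 G p1 p2 p3 p4) {z : V}
    (hz : Cen G p1 p2 p3 p4 z) : ∃ x a, PE G p1 p2 p3 p4 x ∧ Ant G p1 p2 p3 p4 a ∧ G.Adj x a := by
  obtain ⟨a, ha⟩ := exists_ant hc hP hz
  have haP : a ∉ PS p1 p2 p3 p4 := by
    intro h
    simp only [PS, Set.mem_insert_iff, Set.mem_singleton_iff] at h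
    obtain ⟨h12, h23, h34, _⟩ := hP
    rcases h with rfl | rfl | rfl | rfl
    · exact ha.2.1 h12
    · exact ha.1 h12.symm
    · exact ha.2.1 h23.symm
    · exact ha.2.2.1 h34.symm
  obtain ⟨x, z', a', hxP, hxc, hxa, hz', ha'P, ha', hxz, hxa'⟩ := hc.hL0 (PS p1 p2 p3 p4)
    ⟨p1, by simp [PS], p2, by simp [PS], hP.1.ne⟩ (PS_conn hP) (PS_coconn hP)
    ⟨z, compTo_PS.2 hz⟩ ⟨a, haP, antiTo_PS.2 ha⟩
  rw [compTo_PS] at hxc hz'
  rw [antiTo_PS] at hxa ha'
  obtain ⟨g1, g2, g3⟩ := good_pattern hc.hbf hP hz' ha' hxz hxa'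
  refine ⟨x, a', ?_, ha', hxa'⟩
  unfold Cen at hxc
  unfold Ant at hxa
  unfold PE
  tauto

/-- `M2`: two consecutive ones, not all -/
def M2 (G : SimpleGraph V) (a b c d x : V) : Prop :=
  (G.Adj x a ∧ G.Adj x b ∨ G.Adj x c ∧ G.Adj x d) ∧
    ¬ (G.Adj x a ∧ G.Adj x b ∧ G.Adj x c ∧ G.Adj x d)

/-- `M1`: non-zero, no two consecutive ones, not `1001` -/
def M1 (G : SimpleGraph V) (a b c d x : V) : Prop :=
  (G.Adj x a ∨ G.Adj x b ∨ G.Adj x c ∨ G.Adj x d) ∧ ¬ (G.Adj x a ∧ G.Adj x b) ∧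
    ¬ (G.Adj x b ∧ G.Adj x c) ∧ ¬ (G.Adj x c ∧ G.Adj x d) ∧ ¬ (G.Adj x a ∧ G.Adj x d)

theorem M2.symm {x : V} (h : M2 G p1 p2 p3 p4 x) : M2 G p4 p3 p2 p1 x := by
  unfold M2 at *; tauto

theorem M1.symm {x : V} (h : M1 G p1 p2 p3 p4 x) : M1 G p4 p3 p2 p1 x := by
  unfold M1 at *; tauto

theorem PE.symm {x : V} (h : PE G p1 p2 p3 p4 x) : PE G p4 p3 p2 p1 x := by
  unfold PE at *; tauto

theorem classify (hbf : BullFree G) (hP : IsP4 G p1 p2 p3 p4) (v : V) :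
    Cen G p1 p2 p3 p4 v ∨ Ant G p1 p2 p3 p4 v ∨ PE G p1 p2 p3 p4 v ∨ M1 G p1 p2 p3 p4 v ∨
      M2 G p1 p2 p3 p4 v := by
  have h := fun e2 e3 e1 => no0110 hbf hP (x := v) e2 e3 e1
  unfold Cen Ant PE M1 M2
  by_cases h1 : G.Adj v p1 <;> by_cases h2 : G.Adj v p2 <;> by_cases h3 : G.Adj v p3 <;>
    by_cases h4 : G.Adj v p4 <;> simp_all

/-- `M1` is complete to the centres -/
theorem M1_cen (hbf : BullFree G) (hP : IsP4 G p1 p2 p3 p4) {z x : V}
    (hz : Cen G p1 p2 p3 p4 z) (hx : M1 G p1 p2 p3 p4 x) : G.Adj x z := by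
  by_contra hxz
  have h1 := alpha12 hbf hP hz hxz
  have h2 := alpha34 hbf hP hz hxz
  unfold M1 at hx
  tauto

/-- `M2` is anticomplete to the anticentres -/
theorem M2_ant (hbf : BullFree G) (hP : IsP4 G p1 p2 p3 p4) {a x : V}
    (ha : Ant G p1 p2 p3 p4 a) (hx : M2 G p1 p2 p3 p4 x) : ¬ G.Adj x a := by
  intro hxa
  have h1 := fun e1 e2 => beta12 hbf hP ha hxa e1 e2
  have h2 := fun e1 e2 => beta34 hbf hP ha hxa e1 e2
  unfold M2 at hx
  tauto

/-- vertices of pattern `1001` are anticomplete to the centres -/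
theorem PE_cen (hc : GCtx G) (hP : IsP4 G p1 p2 p3 p4) {z x : V}
    (hz : Cen G p1 p2 p3 p4 z) (hx : PE G p1 p2 p3 p4 x) : ¬ G.Adj x z := by
  intro h
  exact hc.hCD p1 p2 p3 p4 x z hP hx.1 hx.2.1 hx.2.2.1 hx.2.2.2 hz h.symm

/-- the first half of (4e): `y` of type `M2` with `y ~ p3, p4` -/
theorem M2_cen_aux (hc : GCtx G) (hP : IsP4 G p1 p2 p3 p4) {z y : V}
    (hz : Cen G p1 p2 p3 p4 z) (hy : M2 G p1 p2 p3 p4 y) (e3 : G.Adj y p3) (e4 : G.Adj y p4) :
    G.Adj y z := by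
  by_contra hyz
  obtain ⟨x, a, hx, ha, hxa⟩ := exists_PE hc hP hz
  have hbf := hc.hbf
  have hya : ¬ G.Adj y a := M2_ant hbf hP ha hy
  have hxz : ¬ G.Adj x z := PE_cen hc hP hz hx
  have hyc : ¬ Cen G p1 p2 p3 p4 y := by unfold Cen; exact hy.2
  have hyan : ¬ Ant G p1 p2 p3 p4 y := by unfold Ant; intro h; exact h.2.2.1 e3
  have hza : ¬ G.Adj z a := by
    intro hza
    rcases p4_i hbf hP hz ha hza hyc hyan with h | h
    · exact hyz h
    · exact hya h
  have hP' := hP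
  obtain ⟨h12, h23, h34, h13, h24, h14⟩ := hP
  obtain ⟨z1, z2, z3, z4⟩ := hz
  obtain ⟨x1, x2, x3, x4⟩ := hx
  obtain ⟨a1, a2, a3, a4⟩ := ha
  have hyx : G.Adj y x := by
    by_cases e2 : G.Adj y p2
    · have e1 : ¬ G.Adj y p1 := fun e1 => hy.2 ⟨e1, e2, e3, e4⟩
      by_contra hyx
      -- triangle p2 p1 z, pendants y - p2, x - p1
      exact hyx (hbf p2 p1 z y x h12.symm z2.symm z1.symm e2 x1 e1 hyz x2 hxz)
    · by_contra hyx
      -- triangle p3 p4 y, pendants p2 - p3, x - p4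
      exact x2 ((hbf p3 p4 y p2 x h34 e3.symm e4.symm h23 x4 (by first | assumption | (rw [SimpleGraph.adj_comm]; assumption)) (by first | assumption | (rw [SimpleGraph.adj_comm]; assumption)) (by first | assumption | (rw [SimpleGraph.adj_comm]; assumption))
        (by first | assumption | (rw [SimpleGraph.adj_comm]; assumption))).symm)
  -- triangle x p4 y, pendants a - x, z - p4
  exact hza ((hbf x p4 y a z x4 hyx.symm e4.symm hxa.symm z4 (by first | assumption | (rw [SimpleGraph.adj_comm]; assumption)) (by first | assumption | (rw [SimpleGraph.adj_comm]; assumption)) (by first | assumption | (rw [SimpleGraph.adj_comm]; assumption))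
    (by first | assumption | (rw [SimpleGraph.adj_comm]; assumption))).symm)

/-- (4e) `M2` is complete to the centres -/
theorem M2_cen (hc : GCtx G) (hP : IsP4 G p1 p2 p3 p4) {z y : V}
    (hz : Cen G p1 p2 p3 p4 z) (hy : M2 G p1 p2 p3 p4 y) : G.Adj y z := by
  rcases hy.1 with h | h
  · exact M2_cen_aux hc hP.symm hz.symm hy.symm h.2 h.1
  · exact M2_cen_aux hc hP hz hy h.1 h.2

end P4

end BullPD
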