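import Mathlib

/-!
Weighted perfection.  `omW G f S` is the maximal `f`-weight of a clique inside the finset `S`,
`WPerf G A` is weighted perfection of the subgraph induced by `A` (every weight function has a
multicolouring with `omW G f A` colours) and `PerfOn G A` is the usual notion (`χ ≤ ω` for every
induced subgraph of `G[A]`).
-/

namespace BullPD

open Finset

variable {V : Type*} [DecidableEq V]

/-- cliques inside `S` -/
noncomputable def cliquesIn (G : SimpleGraph V) (S : Finset V) : Finset (Finset V) :=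
  by classical exact S.powerset.filter (fun K => G.IsClique (K : Set V))

/-- the maximal `f`-weight of a clique inside `S` -/
noncomputable def omW (G : SimpleGraph V) (f : V → ℕ) (S : Finset V) : ℕ :=
  (cliquesIn G S).sup (fun K => ∑ x ∈ K, f x)

theorem mem_cliquesIn {G : SimpleGraph V} {S K : Finset V} :
    K ∈ cliquesIn G S ↔ K ⊆ S ∧ G.IsClique (K : Set V) := by
  classical
  simp [cliquesIn, Finset.mem_filter, Finset.mem_powerset]

theorem empty_mem_cliquesIn (G : SimpleGraph V) (S : Finset V) : (∅ : Finset V) ∈ cliquesIn G S := by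
  rw [mem_cliquesIn]; simp

theorem le_omW {G : SimpleGraph V} {f : V → ℕ} {S K : Finset V} (hK : K ⊆ S)
    (hc : G.IsClique (K : Set V)) : ∑ x ∈ K, f x ≤ omW G f S :=
  Finset.le_sup (f := fun K : Finset V => ∑ x ∈ K, f x) (mem_cliquesIn.2 ⟨hK, hc⟩)

theorem omW_le_iff {G : SimpleGraph V} {f : V → ℕ} {S : Finset V} {k : ℕ} :
    omW G f S ≤ k ↔ ∀ K : Finset V, K ⊆ S → G.IsClique (K : Set V) → ∑ x ∈ K, f x ≤ k := by
  unfold omW
  rw [Finset.sup_le_iff]
  constructor
  · intro h K hK hc
    exact h K (mem_cliquesIn.2 ⟨hK, hc⟩)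
  · intro h K hK
    obtain ⟨h1, h2⟩ := mem_cliquesIn.1 hK
    exact h K h1 h2

theorem exists_omW (G : SimpleGraph V) (f : V → ℕ) (S : Finset V) :
    ∃ K : Finset V, K ⊆ S ∧ G.IsClique (K : Set V) ∧ ∑ x ∈ K, f x = omW G f S := by
  obtain ⟨K, hK, h⟩ := Finset.exists_mem_eq_sup (cliquesIn G S) ⟨∅, empty_mem_cliquesIn G S⟩
    (fun K : Finset V => ∑ x ∈ K, f x)
  obtain ⟨h1, h2⟩ := mem_cliquesIn.1 hK
  exact ⟨K, h1, h2, h.symm⟩

theorem omW_mono {G : SimpleGraph V} {f g : V → ℕ} {S T : Finset V} (hST : S ⊆ T)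
    (hfg : ∀ x ∈ S, f x ≤ g x) : omW G f S ≤ omW G g T := by
  rw [omW_le_iff]
  intro K hK hc
  exact (Finset.sum_le_sum (fun x hx => hfg x (hK hx))).trans (le_omW (hK.trans hST) hc)

theorem omW_mono_set {G : SimpleGraph V} (f : V → ℕ) {S T : Finset V} (hST : S ⊆ T) :
    omW G f S ≤ omW G f T := omW_mono hST (fun _ _ => le_rfl)

theorem omW_congr {G : SimpleGraph V} {f g : V → ℕ} {S : Finset V}
    (hfg : ∀ x ∈ S, f x = g x) : omW G f S = omW G g S :=
  le_antisymm (omW_mono (Finset.Subset.refl S) (fun x hx => (hfg x hx).le))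
    (omW_mono (Finset.Subset.refl S) (fun x hx => (hfg x hx).ge))

theorem single_le_omW {G : SimpleGraph V} {f : V → ℕ} {S : Finset V} {x : V} (hx : x ∈ S) :
    f x ≤ omW G f S := by
  have h := le_omW (G := G) (f := f) (S := S) (K := {x}) (by simpa using hx) (by simp)
  simpa using h

theorem pair_le_omW {G : SimpleGraph V} {f : V → ℕ} {S : Finset V} {x y : V} (hx : x ∈ S)
    (hy : y ∈ S) (h : G.Adj x y) : f x + f y ≤ omW G f S := by
  have hne : x ≠ y := h.ne
  have h2 := le_omW (G := G) (f := f) (S := S) (K := {x, y})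
    (by intro z hz; simp only [Finset.mem_insert, Finset.mem_singleton] at hz
        rcases hz with rfl | rfl <;> assumption)
    (by
      intro a ha b hb hab
      simp only [Finset.coe_insert, Finset.coe_singleton, Set.mem_insert_iff,
        Set.mem_singleton_iff] at ha hb
      rcases ha with rfl | rfl <;> rcases hb with rfl | rfl
      · exact absurd rfl hab
      · exact h
      · exact h.symm
      · exact absurd rfl hab)
  rwa [Finset.sum_pair hne] at h2

/-- `f`-multicolouring of `A` with colours from `C` -/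
def MCol (G : SimpleGraph V) (f : V → ℕ) (A : Finset V) (C : Finset ℕ) (c : V → Finset ℕ) : Prop :=
  (∀ x ∈ A, (c x).card = f x ∧ c x ⊆ C) ∧ ∀ x ∈ A, ∀ y ∈ A, G.Adj x y → Disjoint (c x) (c y)

/-- weighted perfection of `G[A]` -/
def WPerf (G : SimpleGraph V) (A : Finset V) : Prop :=
  ∀ f : V → ℕ, ∃ c : V → Finset ℕ, MCol G f A (range (omW G f A)) c

/-- perfection of `G[A]`: every induced subgraph of `G[A]` can be properly coloured with
as many colours as its clique number -/
def PerfOn (G : SimpleGraph V) (A : Finset V) : Prop :=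
  ∀ T ⊆ A, ∃ c : V → ℕ, (∀ x ∈ T, c x < omW G (fun _ => 1) T) ∧
    ∀ x ∈ T, ∀ y ∈ T, G.Adj x y → c x ≠ c y

theorem MCol.mono {G : SimpleGraph V} {f : V → ℕ} {A B : Finset V} {C D : Finset ℕ}
    {c : V → Finset ℕ} (h : MCol G f A C c) (hBA : B ⊆ A) (hCD : C ⊆ D) : MCol G f B D c :=
  ⟨fun x hx => ⟨(h.1 x (hBA hx)).1, (h.1 x (hBA hx)).2.trans hCD⟩,
    fun x hx y hy => h.2 x (hBA hx) y (hBA hy)⟩

/-- recolour with another colour set of at least the same size -/
theorem MCol.transfer {G : SimpleGraph V} {f : V → ℕ} {A : Finset V} {C D : Finset ℕ}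
    {c : V → Finset ℕ} (h : MCol G f A C c) (hCD : C.card ≤ D.card) :
    ∃ c' : V → Finset ℕ, MCol G f A D c' := by
  obtain ⟨D', hD', hcard⟩ := Finset.exists_subset_card_eq hCD
  have e : C ≃ D' := Finset.equivOfCardEq hcard.symm
  let g : ℕ → ℕ := fun n => if hn : n ∈ C then (e ⟨n, hn⟩ : ℕ) else 0
  have gmem : ∀ n ∈ C, g n ∈ D := by
    intro n hn
    have : g n = (e ⟨n, hn⟩ : ℕ) := by simp [g, hn]
    rw [this]
    exact hD' (e ⟨n, hn⟩).2
  have ginj : ∀ m ∈ C, ∀ n ∈ C, g m = g n → m = n := by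
    intro m hm n hn hmn
    have h1 : g m = (e ⟨m, hm⟩ : ℕ) := by simp [g, hm]
    have h2 : g n = (e ⟨n, hn⟩ : ℕ) := by simp [g, hn]
    rw [h1, h2] at hmn
    have := e.injective (Subtype.ext hmn)
    exact congrArg Subtype.val this
  refine ⟨fun x => (c x).image g, ?_, ?_⟩
  · intro x hx
    obtain ⟨h1, h2⟩ := h.1 x hx
    refine ⟨?_, ?_⟩
    · show ((c x).image g).card = f x
      rw [Finset.card_image_of_injOn, h1]
      intro m hm n hn hmn
      exact ginj m (h2 hm) n (h2 hn) hmn
    · intro n hn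
      obtain ⟨m, hm, rfl⟩ := Finset.mem_image.1 hn
      exact gmem m (h2 hm)
  · intro x hx y hy hxy
    have hd := h.2 x hx y hy hxy
    rw [Finset.disjoint_left]
    intro n hn hn'
    obtain ⟨m, hm, rfl⟩ := Finset.mem_image.1 hn
    obtain ⟨m', hm', hmm⟩ := Finset.mem_image.1 hn'
    have : m' = m := ginj m' ((h.1 y hy).2 hm') m ((h.1 x hx).2 hm) hmm
    subst this
    exact Finset.disjoint_left.1 hd hm hm'

theorem WPerf.exists_col {G : SimpleGraph V} {A : Finset V} (h : WPerf G A) (f : V → ℕ)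
    {C : Finset ℕ} (hC : omW G f A ≤ C.card) : ∃ c : V → Finset ℕ, MCol G f A C c := by
  obtain ⟨c, hc⟩ := h f
  exact hc.transfer (by simpa using hC)

theorem WPerf.exists_col_range {G : SimpleGraph V} {A : Finset V} (h : WPerf G A) (f : V → ℕ)
    {k : ℕ} (hC : omW G f A ≤ k) : ∃ c : V → Finset ℕ, MCol G f A (range k) c :=
  h.exists_col f (by simpa using hC)

theorem WPerf.mono {G : SimpleGraph V} {A B : Finset V} (h : WPerf G A) (hBA : B ⊆ A) :
    WPerf G B := by
  intro f
  let g : V → ℕ := fun x => if x ∈ B then f x else 0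
  have hg : omW G g A ≤ omW G f B := by
    rw [omW_le_iff]
    intro K hK hc
    have h1 : ∑ x ∈ K, g x = ∑ x ∈ K ∩ B, f x := by
      simp only [g]
      rw [← Finset.sum_filter, Finset.filter_mem_eq_inter]
    rw [h1]
    exact le_omW Finset.inter_subset_right (hc.subset (by simp))
  obtain ⟨c, hc⟩ := h.exists_col_range g hg
  refine ⟨c, ?_, ?_⟩
  · intro x hx
    obtain ⟨h1, h2⟩ := hc.1 x (hBA hx)
    exact ⟨by rw [h1]; simp [g, hx], h2⟩
  · intro x hx y hy
    exact hc.2 x (hBA hx) y (hBA hy)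

/-- weighted perfection gives the usual perfection -/
theorem WPerf.perfOn {G : SimpleGraph V} {A : Finset V} (h : WPerf G A) : PerfOn G A := by
  intro T hT
  obtain ⟨c, hc⟩ := (h.mono hT) (fun _ => 1)
  refine ⟨fun x => if hx : (c x).Nonempty then (c x).min' hx else 0, ?_, ?_⟩
  · intro x hx
    obtain ⟨h1, h2⟩ := hc.1 x hx
    have hne : (c x).Nonempty := by
      rw [← Finset.card_pos, h1]; exact Nat.one_pos
    have : (c x).min' hne ∈ c x := Finset.min'_mem _ _
    have h3 := h2 this
    rw [Finset.mem_range] at h3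
    simpa [hne] using h3
  · intro x hx y hy hxy
    have hnx : (c x).Nonempty := by
      rw [← Finset.card_pos, (hc.1 x hx).1]; exact Nat.one_pos
    have hny : (c y).Nonempty := by
      rw [← Finset.card_pos, (hc.1 y hy).1]; exact Nat.one_pos
    simp only [hnx, hny, dif_pos]
    intro heq
    have h1 : (c x).min' hnx ∈ c x := Finset.min'_mem _ _
    have h2 : (c y).min' hny ∈ c y := Finset.min'_mem _ _
    rw [heq] at h1
    exact Finset.disjoint_left.1 (hc.2 x hx y hy hxy) h1 h2

end BullPD
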