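import Mathlib

/-!
# Primitive axial algebras, blocks, decomposability: definitions
-/

namespace Pool.Agent.H8.Axial

universe u

/-- A fusion law over `F`: a subset of `F` containing `1` with a map
`carrier × carrier → 2 ^ carrier`. -/
structure FusionLaw (F : Type u) [Field F] where
  /-- The set of eigenvalues. -/
  carrier : Set F
  one_mem : (1 : F) ∈ carrier
  /-- The map `carrier × carrier → 2 ^ carrier`. -/
  star : carrier → carrier → Set carrier

section Defs

variable {F : Type u} [Field F]

section Ring

variable {B : Type u} [NonUnitalNonAssocRing B] [Module F B]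

/-- Two-sided ideals of a not necessarily associative algebra. -/
def IsIdeal (J : Submodule F B) : Prop := ∀ x : B, ∀ y ∈ J, x * y ∈ J ∧ y * x ∈ J

variable (F B) in
/-- An algebra is decomposable if it is the sum of its proper ideals. -/
def Decomposable : Prop := sSup {J : Submodule F B | IsIdeal J ∧ J ≠ ⊤} = ⊤

end Ring

variable {A : Type u} [NonUnitalNonAssocCommRing A] [Module F A] [IsScalarTower F A A]
  [SMulCommClass F A A]

set_option linter.unusedSectionVars false

variable (F) in
/-- The eigenspace `A_r(a)` of the multiplication by `a`. -/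
def eig (a : A) (r : F) : Submodule F A := Module.End.eigenspace (LinearMap.mulLeft F a) r

/-- The sum `A_S(a)` of the eigenspaces `A_r(a)`, `r ∈ S`. -/
def eigSum (L : FusionLaw F) (a : A) (S : Set L.carrier) : Submodule F A :=
  ⨆ r ∈ S, eig F a (r : F)

/-- `a` is a (nonzero) primitive axis for the fusion law `L`. -/
structure IsPrimitiveAxis (L : FusionLaw F) (a : A) : Prop where
  ne_zero : a ≠ 0
  idem : a * a = a
  decomp : eigSum L a Set.univ = ⊤
  fusion : ∀ (r s : L.carrier), ∀ x ∈ eig F a (r : F), ∀ y ∈ eig F a (s : F),
    x * y ∈ eigSum L a (L.star r s)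
  primitive : eig F a (1 : F) = Submodule.span F {a}

/-- `(A, X)` is a primitive axial algebra for the fusion law `L`. -/
structure IsPrimitiveAxialAlgebra (L : FusionLaw F) (X : Set A) : Prop where
  axes : ∀ a ∈ X, IsPrimitiveAxis L a
  generates : NonUnitalAlgebra.adjoin F X = ⊤

variable (F) in
/-- The smallest ideal of `A` containing `a`, as a subspace. -/
def idealOf (a : A) : Submodule F A := sInf {I : Submodule F A | IsIdeal I ∧ a ∈ I}

theorem idealOf_isIdeal (a : A) : IsIdeal (idealOf F a) := by
  intro x y hy
  simp only [idealOf, Submodule.mem_sInf, Set.mem_ofPred_eq] at hy ⊢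
  exact ⟨fun I hI => (hI.1 x y (hy I hI)).1, fun I hI => (hI.1 x y (hy I hI)).2⟩

theorem mem_idealOf (a : A) : a ∈ idealOf F a := by
  simp only [idealOf, Submodule.mem_sInf, Set.mem_ofPred_eq]
  exact fun I hI => hI.2

theorem idealOf_le {a : A} {I : Submodule F A} (hI : IsIdeal I) (ha : a ∈ I) :
    idealOf F a ≤ I := sInf_le ⟨hI, ha⟩

variable (F) in
/-- The block of `a`: the ideal of `A` generated by `a`, regarded as an algebra. -/
def block (a : A) : NonUnitalSubalgebra F A :=
  (idealOf F a).toNonUnitalSubalgebra (fun x y _ hy => (idealOf_isIdeal a x y hy).1)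

theorem mem_block {a x : A} : x ∈ block F a ↔ x ∈ idealOf F a := Iff.rfl

end Defs

end Pool.Agent.H8.Axial
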