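import Pool.Agent.H8.BullGem3
import Pool.Agent.H78.BF.Mig

/-!
Step (4h): the reduction of `V = P + Z + A + E`.
-/

namespace BullPD

open Finset

variable {V : Type*} [DecidableEq V] {G : SimpleGraph V}

/-- twins: `q` is a (true or false) twin of `p` in `A1` -/
theorem WPerf.twin {A1 : Finset V} {p q : V} (h : WPerf G A1) (hp : p ∈ A1) (hq : q ∉ A1)
    (ht : ∀ y ∈ A1, y ≠ p → (G.Adj y q ↔ G.Adj y p)) : WPerf G (insert q A1) := by
  have hpq : p ≠ q := by rintro rfl; exact hq hp
  have hB : WPerf G ({p, q} : Finset V) := by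
    apply wperf_of_bipartite (fun x => decide (x = p))
    intro x hx y hy hxy
    simp only [Finset.mem_insert, Finset.mem_singleton] at hx hy
    rcases hx with rfl | rfl <;> rcases hy with rfl | rfl
    · exact absurd rfl hxy.ne
    · simp [hpq.symm]
    · simp [hpq.symm]
    · exact absurd rfl hxy.ne
  have h1 := WPerf.substitute (G := G) (A0 := A1.erase p) (B := {p, q}) (h := p)
    (by rwa [Finset.insert_erase hp]) hB (by simp) (by
      rw [Finset.disjoint_left]
      intro y hy hy'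
      simp only [Finset.mem_insert, Finset.mem_singleton] at hy'
      rw [Finset.mem_erase] at hy
      rcases hy' with rfl | rfl
      · exact hy.1 rfl
      · exact hq hy.2) (by
      intro x hx y hy
      rw [Finset.mem_erase] at hx
      simp only [Finset.mem_insert, Finset.mem_singleton] at hy
      rcases hy with rfl | rfl
      · exact Iff.rfl
      · exact ht x hx.2 hx.1)
  have h2 : A1.erase p ∪ {p, q} = insert q A1 := by
    ext y
    simp only [Finset.mem_union, Finset.mem_erase, Finset.mem_insert, Finset.mem_singleton]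
    constructor
    · rintro (⟨_, h⟩ | rfl | rfl)
      · exact Or.inr h
      · exact Or.inr hp
      · exact Or.inl rfl
    · rintro (rfl | h)
      · exact Or.inr (Or.inr rfl)
      · by_cases hyp : y = p
        · exact Or.inr (Or.inl hyp)
        · exact Or.inl ⟨hyp, h⟩
  rwa [h2] at h1

/-- the situation of (4h) -/
structure GadCtx (G : SimpleGraph V) (p1 p2 p3 p4 : V) : Prop where
  hP : IsP4 G p1 p2 p3 p4
  hcl : ∀ v, Cen G p1 p2 p3 p4 v ∨ Ant G p1 p2 p3 p4 v ∨ PE G p1 p2 p3 p4 v ∨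
      v = p1 ∨ v = p2 ∨ v = p3 ∨ v = p4
  hZE : ∀ u v, Cen G p1 p2 p3 p4 u → PE G p1 p2 p3 p4 v → ¬ G.Adj u v

section Gad

variable {p1 p2 p3 p4 : V}

theorem GadCtx.symm (h : GadCtx G p1 p2 p3 p4) : GadCtx G p4 p3 p2 p1 := by
  refine ⟨h.hP.symm, ?_, fun u v hu hv => h.hZE u v hu.symm hv.symm⟩
  intro v
  rcases h.hcl v with h' | h' | h' | h' | h' | h' | h'
  · exact Or.inl h'.symm
  · exact Or.inr (Or.inl h'.symm)
  · exact Or.inr (Or.inr (Or.inl h'.symm))
  all_goals tauto

theorem GadCtx.ne (h : GadCtx G p1 p2 p3 p4) : p1 ≠ p2 ∧ p1 ≠ p3 ∧ p1 ≠ p4 ∧ p2 ≠ p3 ∧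
    p2 ≠ p4 ∧ p3 ≠ p4 := by
  obtain ⟨h12, h23, h34, h13, h24, h14⟩ := h.hP
  refine ⟨h12.ne, ?_, ?_, h23.ne, ?_, h34.ne⟩
  · rintro rfl; exact h14 h34
  · rintro rfl; exact h24 h12.symm
  · rintro rfl; exact h14 h12

/-- neighbours of `p3` outside the path are centres -/
theorem GadCtx.nbr3 (h : GadCtx G p1 p2 p3 p4) {v : V} (hv : G.Adj v p3) (h2 : v ≠ p2)
    (h4 : v ≠ p4) : Cen G p1 p2 p3 p4 v := by
  obtain ⟨h12, h23, h34, h13, h24, h14⟩ := h.hP
  rcases h.hcl v with h' | h' | h' | h' | h' | h' | h'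
  · exact h'
  · exact absurd hv h'.2.2.1
  · exact absurd hv h'.2.2.1
  · subst h'; exact absurd hv h13
  · exact absurd h' h2
  · subst h'; exact absurd hv (G.loopless.irrefl _)
  · exact absurd h' h4

theorem GadCtx.nbr2 (h : GadCtx G p1 p2 p3 p4) {v : V} (hv : G.Adj v p2) (h1 : v ≠ p1)
    (h3 : v ≠ p3) : Cen G p1 p2 p3 p4 v := (h.symm.nbr3 hv h3 h1).symm

/-- neighbours of `p1` outside the path are adjacent to `p4` -/
theorem GadCtx.nbr1 (h : GadCtx G p1 p2 p3 p4) {v : V} (hv : G.Adj v p1) (h2 : v ≠ p2) :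
    Cen G p1 p2 p3 p4 v ∨ PE G p1 p2 p3 p4 v := by
  obtain ⟨h12, h23, h34, h13, h24, h14⟩ := h.hP
  rcases h.hcl v with h' | h' | h' | h' | h' | h' | h'
  · exact Or.inl h'
  · exact absurd hv h'.1
  · exact Or.inr h'
  · subst h'; exact absurd hv (G.loopless.irrefl _)
  · exact absurd h' h2
  · subst h'; exact absurd hv.symm h13
  · subst h'; exact absurd hv.symm h14

theorem GadCtx.nbr4 (h : GadCtx G p1 p2 p3 p4) {v : V} (hv : G.Adj v p4) (h3 : v ≠ p3) :
    Cen G p1 p2 p3 p4 v ∨ PE G p1 p2 p3 p4 v :=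
  (h.symm.nbr1 hv h3).imp Cen.symm PE.symm

theorem Cen.ne (h : GadCtx G p1 p2 p3 p4) {v : V} (hv : Cen G p1 p2 p3 p4 v) :
    v ≠ p1 ∧ v ≠ p2 ∧ v ≠ p3 ∧ v ≠ p4 := by
  refine ⟨?_, ?_, ?_, ?_⟩ <;> rintro rfl
  · exact G.loopless.irrefl _ hv.1
  · exact G.loopless.irrefl _ hv.2.1
  · exact G.loopless.irrefl _ hv.2.2.1
  · exact G.loopless.irrefl _ hv.2.2.2

/-- adding a vertex complete to a clique -/
theorem clique_insert {K : Finset V} {v : V} (hK : G.IsClique (K : Set V))
    (hv : ∀ x ∈ K, G.Adj x v) : G.IsClique ((insert v K : Finset V) : Set V) := by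
  intro a ha b hb hab
  rw [Finset.mem_coe, Finset.mem_insert] at ha hb
  rcases ha with rfl | ha <;> rcases hb with rfl | hb
  · exact absurd rfl hab
  · exact (hv b hb).symm
  · exact hv a ha
  · exact hK ha hb hab

/-- case (4) of the gadget: perfectness -/
theorem GadCtx.wperf4 (h : GadCtx G p1 p2 p3 p4) {A1 : Finset V} (hA : WPerf G A1)
    (h1 : p1 ∈ A1) (h3 : p3 ∈ A1) (h2 : p2 ∉ A1) (h4 : p4 ∉ A1) :
    WPerf G (insert p2 (insert p4 (A1.erase p3))) := by
  obtain ⟨n12, n13, n14, n23, n24, n34⟩ := h.ne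
  obtain ⟨h12, h23, h34, h13, h24, h14⟩ := h.hP
  set A : Finset V := insert p2 (insert p4 (A1.erase p3)) with hAdef
  have m1 : p1 ∈ A := by simp [hAdef, h1, n13]
  have m2 : p2 ∈ A := by simp [hAdef]
  have m4 : p4 ∈ A := by simp [hAdef]
  have mA : ∀ y ∈ A1, y ≠ p3 → y ∈ A := fun y hy hy3 => by simp [hAdef, hy, hy3]
  intro f
  let f' : V → ℕ := fun y => if y = p1 then max (f p1) (f p4) else if y = p3 then f p1 + f p2
    else f y
  have f'1 : f' p1 = max (f p1) (f p4) := by simp [f']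
  have f'3 : f' p3 = f p1 + f p2 := by simp [f', n13.symm]
  have f'n : ∀ y, y ≠ p1 → y ≠ p3 → f' y = f y := fun y hy1 hy3 => by simp [f', hy1, hy3]
  have hom : omW G f' A1 ≤ omW G f A := by
    rw [omW_le_iff]
    intro K hK hc
    by_cases k1 : p1 ∈ K
    · have k3 : p3 ∉ K := fun k3 => h13 (hc k1 k3 n13)
      have hsum : ∑ y ∈ K.erase p1, f' y = ∑ y ∈ K.erase p1, f y := by
        apply Finset.sum_congr rfl
        intro y hy
        rw [Finset.mem_erase] at hy
        exact f'n y hy.1 (by rintro rfl; exact k3 hy.2)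
      rw [← Finset.add_sum_erase _ _ k1, hsum, f'1]
      have hc' : G.IsClique ((K.erase p1 : Finset V) : Set V) := hc.subset (by simp)
      have hsub : ∀ y ∈ K.erase p1, y ∈ A ∧ y ≠ p1 ∧ G.Adj y p1 ∧ G.Adj y p4 ∧ y ≠ p4 := by
        intro y hy
        rw [Finset.mem_erase] at hy
        have hy3 : y ≠ p3 := by rintro rfl; exact k3 hy.2
        have hadj : G.Adj y p1 := hc hy.2 k1 hy.1
        have hy2 : y ≠ p2 := by rintro rfl; exact h2 (hK hy.2)
        have hy4 : y ≠ p4 := by rintro rfl; exact h4 (hK hy.2)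
        refine ⟨mA y (hK hy.2) hy3, hy.1, hadj, ?_, hy4⟩
        rcases h.nbr1 hadj hy2 with h' | h'
        · exact h'.2.2.2
        · exact h'.2.2.2
      have b1 := le_omW (G := G) (f := f) (S := A) (K := insert p1 (K.erase p1)) (by
        intro y hy
        rcases Finset.mem_insert.1 hy with rfl | hy
        · exact m1
        · exact (hsub y hy).1) (clique_insert hc' (fun y hy => (hsub y hy).2.2.1))
      have b2 := le_omW (G := G) (f := f) (S := A) (K := insert p4 (K.erase p1)) (by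
        intro y hy
        rcases Finset.mem_insert.1 hy with rfl | hy
        · exact m4
        · exact (hsub y hy).1) (clique_insert hc' (fun y hy => (hsub y hy).2.2.2.1))
      rw [Finset.sum_insert (by simp)] at b1
      rw [Finset.sum_insert (fun hh => (hsub p4 hh).2.2.2.2 rfl)] at b2
      rcases max_cases (f p1) (f p4) with ⟨hm, _⟩ | ⟨hm, _⟩ <;> rw [hm] <;> omega
    · by_cases k3 : p3 ∈ K
      · have hsum : ∑ y ∈ K.erase p3, f' y = ∑ y ∈ K.erase p3, f y := by
          apply Finset.sum_congr rfl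
          intro y hy
          rw [Finset.mem_erase] at hy
          exact f'n y (by rintro rfl; exact k1 hy.2) hy.1
        rw [← Finset.add_sum_erase _ _ k3, hsum, f'3]
        have hc' : G.IsClique ((K.erase p3 : Finset V) : Set V) := hc.subset (by simp)
        have hsub : ∀ y ∈ K.erase p3, y ∈ A ∧ Cen G p1 p2 p3 p4 y := by
          intro y hy
          rw [Finset.mem_erase] at hy
          have hadj : G.Adj y p3 := hc hy.2 k3 hy.1
          have hy2 : y ≠ p2 := by rintro rfl; exact h2 (hK hy.2)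
          have hy4 : y ≠ p4 := by rintro rfl; exact h4 (hK hy.2)
          exact ⟨mA y (hK hy.2) hy.1, h.nbr3 hadj hy2 hy4⟩
        have b1 := le_omW (G := G) (f := f) (S := A) (K := insert p1 (insert p2 (K.erase p3))) (by
          intro y hy
          rcases Finset.mem_insert.1 hy with rfl | hy
          · exact m1
          · rcases Finset.mem_insert.1 hy with rfl | hy
            · exact m2
            · exact (hsub y hy).1) (by
          apply clique_insert
          · exact clique_insert hc' (fun y hy => (hsub y hy).2.2.1)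
          · intro y hy
            rcases Finset.mem_insert.1 hy with rfl | hy
            · exact h12.symm
            · exact (hsub y hy).2.1)
        rw [Finset.sum_insert, Finset.sum_insert] at b1
        · omega
        · intro hh
          exact (Cen.ne h (hsub p2 hh).2).2.1 rfl
        · intro hh
          rcases Finset.mem_insert.1 hh with hh | hh
          · exact n12 hh
          · exact (Cen.ne h (hsub p1 hh).2).1 rfl
      · have hsum : ∑ y ∈ K, f' y = ∑ y ∈ K, f y := by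
          apply Finset.sum_congr rfl
          intro y hy
          exact f'n y (by rintro rfl; exact k1 hy) (by rintro rfl; exact k3 hy)
        rw [hsum]
        exact le_omW (fun y hy => mA y (hK hy) (by rintro rfl; exact k3 hy)) hc
  obtain ⟨c', hc1, hc2⟩ := hA.exists_col_range f' hom
  obtain ⟨q1, r1⟩ := hc1 p1 h1
  obtain ⟨q3, r3⟩ := hc1 p3 h3
  rw [f'1] at q1
  rw [f'3] at q3
  obtain ⟨C1, hC1, hC1c⟩ := Finset.exists_subset_card_eq (s := c' p1) (n := f p1)
    (by rw [q1]; exact le_max_left _ _)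
  obtain ⟨C4, hC4, hC4c⟩ := Finset.exists_subset_card_eq (s := c' p1) (n := f p4)
    (by rw [q1]; exact le_max_right _ _)
  obtain ⟨C2, hC2, hC2c⟩ := Finset.exists_subset_card_eq (s := c' p3 \ C1) (n := f p2) (by
    have := Finset.le_card_sdiff C1 (c' p3)
    omega)
  have hC2' : C2 ⊆ c' p3 := hC2.trans Finset.sdiff_subset
  have hC12 : Disjoint C1 C2 :=
    Finset.disjoint_of_subset_right hC2 Finset.disjoint_sdiff
  let c : V → Finset ℕ := fun y => if y = p1 then C1 else if y = p2 then C2 else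
    if y = p4 then C4 else c' y
  have c1 : c p1 = C1 := by simp [c]
  have c2 : c p2 = C2 := by simp [c, n12.symm]
  have c4 : c p4 = C4 := by simp [c, n14.symm, n24.symm]
  have cn : ∀ y, y ≠ p1 → y ≠ p2 → y ≠ p4 → c y = c' y := fun y a b d => by simp [c, a, b, d]
  have hcases : ∀ y ∈ A, y = p1 ∨ y = p2 ∨ y = p4 ∨
      (y ∈ A1 ∧ y ≠ p1 ∧ y ≠ p2 ∧ y ≠ p3 ∧ y ≠ p4) := by
    intro y hy
    rw [hAdef, Finset.mem_insert, Finset.mem_insert, Finset.mem_erase] at hy
    by_cases y1 : y = p1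
    · exact Or.inl y1
    · rcases hy with y2 | y4 | ⟨y3, hy⟩
      · exact Or.inr (Or.inl y2)
      · exact Or.inr (Or.inr (Or.inl y4))
      · right; right; right
        exact ⟨hy, y1, by rintro rfl; exact h2 hy, y3, by rintro rfl; exact h4 hy⟩
  have d1 : ∀ y, y ∈ A1 → y ≠ p1 → y ≠ p2 → y ≠ p3 → y ≠ p4 → G.Adj y p1 →
      Disjoint (c' y) C1 := by
    intro y hy y1 y2 y3 y4 hadj
    exact Finset.disjoint_of_subset_right hC1 (hc2 y hy p1 h1 hadj)
  have d4 : ∀ y, y ∈ A1 → y ≠ p1 → y ≠ p2 → y ≠ p3 → y ≠ p4 → G.Adj y p4 →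
      Disjoint (c' y) C4 := by
    intro y hy y1 y2 y3 y4 hadj
    have hadj1 : G.Adj y p1 := by
      rcases h.nbr4 hadj y3 with h' | h'
      · exact h'.1
      · exact h'.1
    exact Finset.disjoint_of_subset_right hC4 (hc2 y hy p1 h1 hadj1)
  have d2 : ∀ y, y ∈ A1 → y ≠ p1 → y ≠ p2 → y ≠ p3 → y ≠ p4 → G.Adj y p2 →
      Disjoint (c' y) C2 := by
    intro y hy y1 y2 y3 y4 hadj
    have hadj3 : G.Adj y p3 := (h.nbr2 hadj y1 y3).2.2.1
    exact Finset.disjoint_of_subset_right hC2' (hc2 y hy p3 h3 hadj3)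
  refine ⟨c, ?_, ?_⟩
  · intro y hy
    rcases hcases y hy with rfl | rfl | rfl | ⟨hyA, y1, y2, y3, y4⟩
    · rw [c1]; exact ⟨hC1c, hC1.trans r1⟩
    · rw [c2]; exact ⟨hC2c, hC2'.trans r3⟩
    · rw [c4]; exact ⟨hC4c, hC4.trans r1⟩
    · rw [cn y y1 y2 y4]
      have := hc1 y hyA
      rwa [f'n y y1 y3] at this
  · intro y hy u hu hyu
    rcases hcases y hy with rfl | rfl | rfl | ⟨hyA, y1, y2, y3, y4⟩
    · rcases hcases u hu with rfl | rfl | rfl | ⟨huA, u1, u2, u3, u4⟩
      · exact absurd rfl hyu.ne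
      · rw [c1, c2]; exact hC12
      · exact absurd hyu h14
      · rw [c1, cn u u1 u2 u4]
        exact (d1 u huA u1 u2 u3 u4 hyu.symm).symm
    · rcases hcases u hu with rfl | rfl | rfl | ⟨huA, u1, u2, u3, u4⟩
      · rw [c1, c2]; exact hC12.symm
      · exact absurd rfl hyu.ne
      · exact absurd hyu h24
      · rw [c2, cn u u1 u2 u4]
        exact (d2 u huA u1 u2 u3 u4 hyu.symm).symm
    · rcases hcases u hu with rfl | rfl | rfl | ⟨huA, u1, u2, u3, u4⟩
      · exact absurd hyu.symm h14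
      · exact absurd hyu.symm h24
      · exact absurd rfl hyu.ne
      · rw [c4, cn u u1 u2 u4]
        exact (d4 u huA u1 u2 u3 u4 hyu.symm).symm
    · rcases hcases u hu with rfl | rfl | rfl | ⟨huA, u1, u2, u3, u4⟩
      · rw [c1, cn y y1 y2 y4]; exact d1 y hyA y1 y2 y3 y4 hyu
      · rw [c2, cn y y1 y2 y4]; exact d2 y hyA y1 y2 y3 y4 hyu
      · rw [c4, cn y y1 y2 y4]; exact d4 y hyA y1 y2 y3 y4 hyu
      · rw [cn y y1 y2 y4, cn u u1 u2 u4]
        exact hc2 y hyA u huA hyu

end Gad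

end BullPD
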