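import Pool.Agent.H8.BullDefs

/-!
Facts on an induced path `p1 p2 p3 p4` with a centre and/or an anticentre in a bull-free graph.
-/

namespace BullPD

variable {V : Type*} {G : SimpleGraph V}

theorem IsP4.symm {a b c d : V} (h : IsP4 G a b c d) : IsP4 G d c b a := by
  obtain ⟨h1, h2, h3, h4, h5, h6⟩ := h
  exact ⟨h3.symm, h2.symm, h1.symm, fun h => h5 h.symm, fun h => h4 h.symm, fun h => h6 h.symm⟩

/-- `z` is adjacent to the four vertices -/
def Cen (G : SimpleGraph V) (a b c d z : V) : Prop :=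
  G.Adj z a ∧ G.Adj z b ∧ G.Adj z c ∧ G.Adj z d

/-- `z` is adjacent to none of the four vertices -/
def Ant (G : SimpleGraph V) (a b c d z : V) : Prop :=
  ¬ G.Adj z a ∧ ¬ G.Adj z b ∧ ¬ G.Adj z c ∧ ¬ G.Adj z d

theorem Cen.symm {a b c d z : V} (h : Cen G a b c d z) : Cen G d c b a z :=
  ⟨h.2.2.2, h.2.2.1, h.2.1, h.1⟩

theorem Ant.symm {a b c d z : V} (h : Ant G a b c d z) : Ant G d c b a z :=
  ⟨h.2.2.2, h.2.2.1, h.2.1, h.1⟩

/-- two adjacent vertices `h1 h2` with a common neighbour `z` and `h3 ~ z` only -/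
theorem bull_c (hbf : BullFree G) {h1 h2 h3 x z : V} (h12 : G.Adj h1 h2) (hz1 : G.Adj z h1)
    (hz2 : G.Adj z h2) (hz3 : G.Adj z h3) (hx1 : G.Adj x h1) (hx2 : ¬ G.Adj x h2)
    (hxz : ¬ G.Adj x z) (h31 : ¬ G.Adj h3 h1) (h32 : ¬ G.Adj h3 h2) : G.Adj x h3 :=
  hbf h1 z h2 x h3 hz1.symm h12 hz2 hx1 hz3.symm hxz hx2 h31 h32

/-- two adjacent vertices `h1 h2` in `N(x)`, `a ~ x` only, `h3 ~ h1` only -/
theorem bull_a (hbf : BullFree G) {h1 h2 h3 x a : V} (h12 : G.Adj h1 h2) (hx1 : G.Adj x h1)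
    (hx2 : G.Adj x h2) (hxa : G.Adj x a) (ha1 : ¬ G.Adj a h1) (ha2 : ¬ G.Adj a h2)
    (ha3 : ¬ G.Adj a h3) (h31 : G.Adj h3 h1) (h32 : ¬ G.Adj h3 h2) : G.Adj x h3 := by
  by_contra hx3
  exact ha3 (hbf x h1 h2 a h3 hx1 hx2 h12 hxa.symm h31 ha1 ha2 (fun h => hx3 h.symm) h32)

section P4

variable {p1 p2 p3 p4 : V}

/-- (alpha), first half -/
theorem alpha12 (hbf : BullFree G) (hP : IsP4 G p1 p2 p3 p4) {z x : V}
    (hz : Cen G p1 p2 p3 p4 z) (hxz : ¬ G.Adj x z) :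
    (G.Adj x p1 ↔ G.Adj x p2) ∨ G.Adj x p4 := by
  obtain ⟨h12, h23, h34, h13, h24, h14⟩ := hP
  obtain ⟨z1, z2, z3, z4⟩ := hz
  by_cases e1 : G.Adj x p1
  · by_cases e2 : G.Adj x p2
    · exact Or.inl (by simp [e1, e2])
    · exact Or.inr (bull_c hbf h12 z1 z2 z4 e1 e2 hxz (by first | assumption | (rw [SimpleGraph.adj_comm]; assumption)) (by first | assumption | (rw [SimpleGraph.adj_comm]; assumption)))
  · by_cases e2 : G.Adj x p2
    · exact Or.inr (bull_c hbf h12.symm z2 z1 z4 e2 e1 hxz (by first | assumption | (rw [SimpleGraph.adj_comm]; assumption)) (by first | assumption | (rw [SimpleGraph.adj_comm]; assumption)))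
    · exact Or.inl (by simp [e1, e2])

/-- (alpha), second half -/
theorem alpha34 (hbf : BullFree G) (hP : IsP4 G p1 p2 p3 p4) {z x : V}
    (hz : Cen G p1 p2 p3 p4 z) (hxz : ¬ G.Adj x z) :
    (G.Adj x p3 ↔ G.Adj x p4) ∨ G.Adj x p1 := by
  rcases alpha12 hbf hP.symm hz.symm hxz with h | h
  · exact Or.inl h.symm
  · exact Or.inr h

/-- (beta): `x ~ a` -/
theorem beta12 (hbf : BullFree G) (hP : IsP4 G p1 p2 p3 p4) {a x : V}
    (ha : Ant G p1 p2 p3 p4 a) (hxa : G.Adj x a) (e1 : G.Adj x p1) (e2 : G.Adj x p2) :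
    G.Adj x p3 ∧ G.Adj x p4 := by
  obtain ⟨h12, h23, h34, h13, h24, h14⟩ := hP
  obtain ⟨a1, a2, a3, a4⟩ := ha
  have e3 : G.Adj x p3 := bull_a hbf h12.symm e2 e1 hxa a2 a1 a3 h23.symm (by first | assumption | (rw [SimpleGraph.adj_comm]; assumption))
  exact ⟨e3, bull_a hbf h23.symm e3 e2 hxa a3 a2 a4 h34.symm (by first | assumption | (rw [SimpleGraph.adj_comm]; assumption))⟩

theorem beta34 (hbf : BullFree G) (hP : IsP4 G p1 p2 p3 p4) {a x : V}
    (ha : Ant G p1 p2 p3 p4 a) (hxa : G.Adj x a) (e3 : G.Adj x p3) (e4 : G.Adj x p4) :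
    G.Adj x p1 ∧ G.Adj x p2 :=
  (beta12 hbf hP.symm ha.symm hxa e4 e3).symm

theorem beta23 (hbf : BullFree G) (hP : IsP4 G p1 p2 p3 p4) {a x : V}
    (ha : Ant G p1 p2 p3 p4 a) (hxa : G.Adj x a) (e2 : G.Adj x p2) (e3 : G.Adj x p3) :
    G.Adj x p1 ∧ G.Adj x p4 := by
  obtain ⟨h12, h23, h34, h13, h24, h14⟩ := hP
  obtain ⟨a1, a2, a3, a4⟩ := ha
  exact ⟨bull_a hbf h23 e2 e3 hxa a2 a3 a1 h12 (by first | assumption | (rw [SimpleGraph.adj_comm]; assumption)),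
    bull_a hbf h23.symm e3 e2 hxa a3 a2 a4 h34.symm (by first | assumption | (rw [SimpleGraph.adj_comm]; assumption))⟩

/-- the pattern of a vertex non-adjacent to a centre and adjacent to an anticentre -/
theorem good_pattern (hbf : BullFree G) (hP : IsP4 G p1 p2 p3 p4) {z a x : V}
    (hz : Cen G p1 p2 p3 p4 z) (ha : Ant G p1 p2 p3 p4 a) (hxz : ¬ G.Adj x z)
    (hxa : G.Adj x a) :
    (G.Adj x p1 ↔ G.Adj x p4) ∧ (G.Adj x p2 ↔ G.Adj x p3) ∧ (G.Adj x p2 → G.Adj x p1) := by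
  have h1 := alpha12 hbf hP hz hxz
  have h2 := alpha34 hbf hP hz hxz
  have h3 := fun e1 e2 => beta12 hbf hP ha hxa e1 e2
  have h4 := fun e1 e2 => beta23 hbf hP ha hxa e1 e2
  have h5 := fun e1 e2 => beta34 hbf hP ha hxa e1 e2
  by_cases e1 : G.Adj x p1 <;> by_cases e2 : G.Adj x p2 <;> by_cases e3 : G.Adj x p3 <;>
    by_cases e4 : G.Adj x p4 <;> simp_all

/-- the pattern `0110` is a bull -/
theorem no0110 (hbf : BullFree G) (hP : IsP4 G p1 p2 p3 p4) {x : V} (e2 : G.Adj x p2)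
    (e3 : G.Adj x p3) (e1 : ¬ G.Adj x p1) : G.Adj x p4 := by
  obtain ⟨h12, h23, h34, h13, h24, h14⟩ := hP
  by_contra e4
  exact h14 (hbf p2 p3 x p1 p4 h23 e2.symm e3.symm h12 h34.symm h13 (by first | assumption | (rw [SimpleGraph.adj_comm]; assumption)) (by first | assumption | (rw [SimpleGraph.adj_comm]; assumption)) (by first | assumption | (rw [SimpleGraph.adj_comm]; assumption)))

/-- (i) for a path: centre adjacent to anticentre -/
theorem p4_i (hbf : BullFree G) (hP : IsP4 G p1 p2 p3 p4) {z a x : V}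
    (hz : Cen G p1 p2 p3 p4 z) (ha : Ant G p1 p2 p3 p4 a) (hza : G.Adj z a)
    (hxc : ¬ Cen G p1 p2 p3 p4 x) (hxa : ¬ Ant G p1 p2 p3 p4 x) : G.Adj x z ∨ G.Adj x a := by
  by_contra hcon
  push Not at hcon
  obtain ⟨h1, h2⟩ := hcon
  obtain ⟨h12, h23, h34, h13, h24, h14⟩ := hP
  obtain ⟨z1, z2, z3, z4⟩ := hz
  obtain ⟨a1, a2, a3, a4⟩ := ha
  have key : ∀ h h' : V, G.Adj h h' → G.Adj z h → G.Adj z h' → ¬ G.Adj a h → ¬ G.Adj a h' →
      G.Adj x h → G.Adj x h' := by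
    intro h h' hh zh zh' ah ah' xh
    by_contra xh'
    exact h2 (bull_c hbf hh zh zh' hza xh xh' h1 ah ah')
  have k12 := key p1 p2 h12 z1 z2 a1 a2
  have k21 := key p2 p1 h12.symm z2 z1 a2 a1
  have k23 := key p2 p3 h23 z2 z3 a2 a3
  have k32 := key p3 p2 h23.symm z3 z2 a3 a2
  have k34 := key p3 p4 h34 z3 z4 a3 a4
  have k43 := key p4 p3 h34.symm z4 z3 a4 a3
  unfold Cen at hxc
  unfold Ant at hxa
  tauto

/-- (ii) for a path: centre non-adjacent to anticentre -/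
theorem p4_ii (hbf : BullFree G) (hP : IsP4 G p1 p2 p3 p4) {z a x : V}
    (hz : Cen G p1 p2 p3 p4 z) (ha : Ant G p1 p2 p3 p4 a) (hza : ¬ G.Adj z a)
    (hxc : ¬ Cen G p1 p2 p3 p4 x) (hxa : ¬ Ant G p1 p2 p3 p4 x) (hxz : G.Adj x z) :
    ¬ G.Adj x a := by
  intro hxa'
  obtain ⟨h12, h23, h34, h13, h24, h14⟩ := hP
  obtain ⟨z1, z2, z3, z4⟩ := hz
  obtain ⟨a1, a2, a3, a4⟩ := ha
  have key : ∀ h h' : V, ¬ G.Adj h h' → G.Adj z h → G.Adj z h' → ¬ G.Adj a h → ¬ G.Adj a h' →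
      G.Adj x h → G.Adj x h' := by
    intro h h' hh zh zh' ah ah' xh
    exact bull_a hbf zh hxz xh hxa' (by first | assumption | (rw [SimpleGraph.adj_comm]; assumption)) ah ah' (by first | assumption | (rw [SimpleGraph.adj_comm]; assumption)) (by first | assumption | (rw [SimpleGraph.adj_comm]; assumption))
  have k13 := key p1 p3 h13 z1 z3 a1 a3
  have k31 := key p3 p1 (by first | assumption | (rw [SimpleGraph.adj_comm]; assumption)) z3 z1 a3 a1
  have k14 := key p1 p4 h14 z1 z4 a1 a4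
  have k41 := key p4 p1 (by first | assumption | (rw [SimpleGraph.adj_comm]; assumption)) z4 z1 a4 a1
  have k24 := key p2 p4 h24 z2 z4 a2 a4
  have k42 := key p4 p2 (by first | assumption | (rw [SimpleGraph.adj_comm]; assumption)) z4 z2 a4 a2
  unfold Cen at hxc
  unfold Ant at hxa
  tauto

end P4

end BullPD
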