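import Pool.Agent.H8.BullGem2

/-!
Steps (4f), (4g).
-/

namespace BullPD

variable {V : Type*} {G : SimpleGraph V}

section P4

variable {p1 p2 p3 p4 : V}

/-- mixed vertices of type `M1` or `M2` (the path itself included) -/
def W0 (G : SimpleGraph V) (a b c d x : V) : Prop := M1 G a b c d x ∨ M2 G a b c d x

theorem W0.symm {x : V} (h : W0 G p1 p2 p3 p4 x) : W0 G p4 p3 p2 p1 x :=
  h.imp M1.symm M2.symm

theorem W0_cen (hc : GCtx G) (hP : IsP4 G p1 p2 p3 p4) {z y : V}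
    (hz : Cen G p1 p2 p3 p4 z) (hy : W0 G p1 p2 p3 p4 y) : G.Adj y z := by
  rcases hy with h | h
  · exact M1_cen hc.hbf hP hz h
  · exact M2_cen hc hP hz h

theorem W0_not_cen {y : V} (hy : W0 G p1 p2 p3 p4 y) : ¬ Cen G p1 p2 p3 p4 y := by
  unfold W0 M1 M2 at hy; unfold Cen; tauto

theorem W0_not_ant {y : V} (hy : W0 G p1 p2 p3 p4 y) : ¬ Ant G p1 p2 p3 p4 y := by
  unfold W0 M1 M2 at hy; unfold Ant; tauto

theorem W0_not_PE {y : V} (hy : W0 G p1 p2 p3 p4 y) : ¬ PE G p1 p2 p3 p4 y := by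
  unfold W0 M1 M2 at hy; unfold PE; tauto

theorem W0_p1 (hP : IsP4 G p1 p2 p3 p4) : W0 G p1 p2 p3 p4 p1 := by
  obtain ⟨h12, h23, h34, h13, h24, h14⟩ := hP
  left
  refine ⟨Or.inr (Or.inl h12), ?_, ?_, ?_, ?_⟩ <;> simp_all

theorem W0_p2 (hP : IsP4 G p1 p2 p3 p4) : W0 G p1 p2 p3 p4 p2 := by
  obtain ⟨h12, h23, h34, h13, h24, h14⟩ := hP
  left
  refine ⟨Or.inl h12.symm, ?_, ?_, ?_, ?_⟩ <;> simp_all

theorem W0_p3 (hP : IsP4 G p1 p2 p3 p4) : W0 G p1 p2 p3 p4 p3 := (W0_p2 hP.symm).symm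

theorem W0_p4 (hP : IsP4 G p1 p2 p3 p4) : W0 G p1 p2 p3 p4 p4 := (W0_p1 hP.symm).symm

/-- the levels of the closure of `W0` in the anticentres -/
def AL (G : SimpleGraph V) (a b c d : V) : ℕ → V → Prop
  | 0, v => W0 G a b c d v
  | n + 1, v => Ant G a b c d v ∧ ∃ u, AL G a b c d n u ∧ G.Adj v u

theorem AL_cen (hc : GCtx G) (hP : IsP4 G p1 p2 p3 p4) {z : V} (hz : Cen G p1 p2 p3 p4 z) :
    ∀ n v, AL G p1 p2 p3 p4 n v → G.Adj v z := by
  intro n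
  induction n using Nat.strong_induction_on with
  | _ n ih =>
  intro v hv
  match n, hv with
  | 0, hv => exact W0_cen hc hP hz hv
  | 1, ⟨hva, u, hu, hvu⟩ =>
    have hu' : W0 G p1 p2 p3 p4 u := hu
    have huz := W0_cen hc hP hz hu'
    by_contra hvz
    exact p4_ii hc.hbf hP hz hva (by first | assumption | (rw [SimpleGraph.adj_comm]; assumption)) (W0_not_cen hu') (W0_not_ant hu') huz hvu.symm
  | m + 2, ⟨hva, u, ⟨hua, t, ht, hut⟩, hvu⟩ =>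
    by_cases hvt : G.Adj v t
    · exact ih (m + 1) (by omega) v ⟨hva, t, ht, hvt⟩
    · by_contra hvz
      have hzu : G.Adj u z := ih (m + 1) (by omega) u ⟨hua, t, ht, hut⟩
      have hzt : G.Adj t z := ih m (by omega) t ht
      obtain ⟨z1, z2, z3, z4⟩ := hz
      obtain ⟨v1, v2, v3, v4⟩ := hva
      obtain ⟨u1, u2, u3, u4⟩ := hua
      have htc : ¬ Cen G p1 p2 p3 p4 t := by
        match m, ht with
        | 0, ht => exact W0_not_cen ht
        | k + 1, ht => exact fun h => ht.1.1 h.1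
      have key : ∀ h, G.Adj z h → ¬ G.Adj v h → ¬ G.Adj u h → G.Adj t h := by
        intro h hzh hvh huh
        by_contra hth
        -- triangle u z t, pendants v - u, h - z
        exact hvh (hc.hbf u z t v h hzu hut hzt.symm hvu hzh.symm hvz hvt (by first | assumption | (rw [SimpleGraph.adj_comm]; assumption)) (by first | assumption | (rw [SimpleGraph.adj_comm]; assumption)))
      exact htc ⟨key _ z1 v1 u1, key _ z2 v2 u2, key _ z3 v3 u3, key _ z4 v4 u4⟩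

/-- the closure of `W0` -/
def WW (G : SimpleGraph V) (a b c d v : V) : Prop := ∃ n, AL G a b c d n v

theorem WW_of_W0 {v : V} (h : W0 G p1 p2 p3 p4 v) : WW G p1 p2 p3 p4 v := ⟨0, h⟩

theorem WW_cen (hc : GCtx G) (hP : IsP4 G p1 p2 p3 p4) {z v : V} (hz : Cen G p1 p2 p3 p4 z)
    (hv : WW G p1 p2 p3 p4 v) : G.Adj v z := by
  obtain ⟨n, hn⟩ := hv
  exact AL_cen hc hP hz n v hn

theorem WW_step {v u : V} (hv : Ant G p1 p2 p3 p4 v) (hu : WW G p1 p2 p3 p4 u)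
    (h : G.Adj v u) : WW G p1 p2 p3 p4 v := by
  obtain ⟨n, hn⟩ := hu
  exact ⟨n + 1, hv, u, hn, h⟩

theorem WW_cases {v : V} (hv : WW G p1 p2 p3 p4 v) :
    W0 G p1 p2 p3 p4 v ∨ Ant G p1 p2 p3 p4 v := by
  obtain ⟨n, hn⟩ := hv
  match n, hn with
  | 0, hn => exact Or.inl hn
  | n + 1, hn => exact Or.inr hn.1

/-- (4f) there is a vertex `x0` of pattern `1001` with a neighbour `a0` outside the closure -/
theorem exists_x0 (hc : GCtx G) (hP : IsP4 G p1 p2 p3 p4) {z : V}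
    (hz : Cen G p1 p2 p3 p4 z) : ∃ x a, PE G p1 p2 p3 p4 x ∧ Ant G p1 p2 p3 p4 a ∧
      ¬ WW G p1 p2 p3 p4 a ∧ G.Adj x a := by
  by_contra hno
  push Not at hno
  obtain ⟨x, a', hx, ha', hxa'⟩ := exists_PE hc hP hz
  have hbf := hc.hbf
  by_cases hA2 : ∃ a, Ant G p1 p2 p3 p4 a ∧ ¬ WW G p1 p2 p3 p4 a
  · -- some anticentre outside the closure: `G` is disconnected
    let T : Set V := {a | Ant G p1 p2 p3 p4 a ∧ ¬ WW G p1 p2 p3 p4 a}
    obtain ⟨h12, h23, h34, h13, h24, h14⟩ := hP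
    refine hc.hpr.conn (T := T) hA2 ?_ (p := p1) (q := p2) h12.ne
      (fun h => h.1.2.1 h12) (fun h => h.1.1 h12.symm)
    intro a ha y hy hay
    have hP : IsP4 G p1 p2 p3 p4 := ⟨h12, h23, h34, h13, h24, h14⟩
    rcases classify hbf hP y with h | h | h | h | h
    · -- centre
      have hxz := PE_cen hc hP h hx
      have hxa : ¬ G.Adj x a := hno x a hx ha.1 ha.2
      rcases p4_i hbf hP h ha.1 hay.symm (x := x) (fun h' => hx.2.1 h'.2.1)
        (fun h' => h'.1 hx.1) with h' | h'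
      · exact hxz h'
      · exact hxa h'
    · -- anticentre
      have hyW : WW G p1 p2 p3 p4 y := by
        by_contra hyW
        exact hy ⟨h, hyW⟩
      exact ha.2 (WW_step ha.1 hyW hay)
    · exact hno y a h ha.1 ha.2 hay.symm
    · exact ha.2 (WW_step ha.1 (WW_of_W0 (Or.inl h)) hay)
    · exact ha.2 (WW_step ha.1 (WW_of_W0 (Or.inr h)) hay)
  · push Not at hA2
    obtain ⟨I, hIz, hIp, hIb, hIn⟩ := hc.hI z
    have hzA : AntiTo G z I := fun x hx => (hIz x hx).2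
    have hZE : ∀ v ∈ I, Cen G p1 p2 p3 p4 v ∨ PE G p1 p2 p3 p4 v := by
      intro v hv
      rcases classify hbf hP v with h | h | h | h | h
      · exact Or.inl h
      · exact absurd (WW_cen hc hP hz (hA2 v h)).symm (hzA v hv)
      · exact Or.inr h
      · exact absurd (W0_cen hc hP hz (Or.inl h)).symm (hzA v hv)
      · exact absurd (W0_cen hc hP hz (Or.inr h)).symm (hzA v hv)
    have hp1 : CompTo G p1 I := by
      intro v hv
      rcases hZE v hv with h | h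
      · exact h.1.symm
      · exact h.1.symm
    exact hIn p1 hp1

end P4

/-- the situation of (4g) -/
structure Ctx4 (G : SimpleGraph V) (p1 p2 p3 p4 z x0 a0 : V) : Prop where
  hc : GCtx G
  hP : IsP4 G p1 p2 p3 p4
  hz : Cen G p1 p2 p3 p4 z
  hx : PE G p1 p2 p3 p4 x0
  ha : Ant G p1 p2 p3 p4 a0
  haW : ¬ WW G p1 p2 p3 p4 a0
  hxa : G.Adj x0 a0

section C4

variable {p1 p2 p3 p4 z x0 a0 : V}

theorem AL_symm {n : ℕ} {v : V} (h : AL G p1 p2 p3 p4 n v) : AL G p4 p3 p2 p1 n v := by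
  induction n generalizing v with
  | zero => exact W0.symm h
  | succ n ih =>
    obtain ⟨h1, u, hu, hvu⟩ := h
    exact ⟨h1.symm, u, ih hu, hvu⟩

theorem WW_symm {v : V} (h : WW G p1 p2 p3 p4 v) : WW G p4 p3 p2 p1 v := by
  obtain ⟨n, hn⟩ := h
  exact ⟨n, AL_symm hn⟩

theorem Ctx4.symm (h : Ctx4 G p1 p2 p3 p4 z x0 a0) : Ctx4 G p4 p3 p2 p1 z x0 a0 :=
  ⟨h.hc, h.hP.symm, h.hz.symm, h.hx.symm, h.ha.symm, fun h' => h.haW (WW_symm h'), h.hxa⟩

theorem Ctx4.cen (h : Ctx4 G p1 p2 p3 p4 z x0 a0) {v : V} (hv : WW G p1 p2 p3 p4 v) :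
    G.Adj z v := (WW_cen h.hc h.hP h.hz hv).symm

theorem Ctx4.ant (h : Ctx4 G p1 p2 p3 p4 z x0 a0) {v : V} (hv : WW G p1 p2 p3 p4 v) :
    ¬ G.Adj a0 v := fun h' => h.haW (WW_step h.ha hv h')

theorem Ctx4.xz (h : Ctx4 G p1 p2 p3 p4 z x0 a0) : ¬ G.Adj x0 z := PE_cen h.hc h.hP h.hz h.hx

/-- the pattern of `x0` on paths inside the closure -/
theorem Ctx4.pat (h : Ctx4 G p1 p2 p3 p4 z x0 a0) {q1 q2 q3 q4 : V}
    (hQ : IsP4 G q1 q2 q3 q4) (w1 : WW G p1 p2 p3 p4 q1) (w2 : WW G p1 p2 p3 p4 q2)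
    (w3 : WW G p1 p2 p3 p4 q3) (w4 : WW G p1 p2 p3 p4 q4) :
    (G.Adj x0 q1 ↔ G.Adj x0 q4) ∧ (G.Adj x0 q2 ↔ G.Adj x0 q3) ∧
      (G.Adj x0 q2 → G.Adj x0 q1) :=
  good_pattern h.hc.hbf hQ (z := z) (a := a0) ⟨h.cen w1, h.cen w2, h.cen w3, h.cen w4⟩
    ⟨h.ant w1, h.ant w2, h.ant w3, h.ant w4⟩ h.xz h.hxa

theorem Ctx4.w1 (h : Ctx4 G p1 p2 p3 p4 z x0 a0) : WW G p1 p2 p3 p4 p1 := WW_of_W0 (W0_p1 h.hP)
theorem Ctx4.w2 (h : Ctx4 G p1 p2 p3 p4 z x0 a0) : WW G p1 p2 p3 p4 p2 := WW_of_W0 (W0_p2 h.hP)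
theorem Ctx4.w3 (h : Ctx4 G p1 p2 p3 p4 z x0 a0) : WW G p1 p2 p3 p4 p3 := WW_of_W0 (W0_p3 h.hP)
theorem Ctx4.w4 (h : Ctx4 G p1 p2 p3 p4 z x0 a0) : WW G p1 p2 p3 p4 p4 := WW_of_W0 (W0_p4 h.hP)

/-- first class: pattern `?100` -/
def N1 (G : SimpleGraph V) (_a b c d v : V) : Prop := G.Adj v b ∧ ¬ G.Adj v c ∧ ¬ G.Adj v d

/-- second class: pattern `1?10` -/
def F1 (G : SimpleGraph V) (a _b c d v : V) : Prop := G.Adj v a ∧ G.Adj v c ∧ ¬ G.Adj v d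

theorem N1_W0 {v : V} (h : N1 G p1 p2 p3 p4 v) : W0 G p1 p2 p3 p4 v := by
  unfold W0 M1 M2
  unfold N1 at h
  by_cases h1 : G.Adj v p1 <;> simp_all

theorem F1_W0 {v : V} (h : F1 G p1 p2 p3 p4 v) : W0 G p1 p2 p3 p4 v := by
  unfold W0 M1 M2
  unfold F1 at h
  by_cases h1 : G.Adj v p2 <;> simp_all

/-- all of `W0` is classified -/
theorem Ctx4.class (h : Ctx4 G p1 p2 p3 p4 z x0 a0) {v : V} (hv : W0 G p1 p2 p3 p4 v) :
    N1 G p1 p2 p3 p4 v ∨ F1 G p1 p2 p3 p4 v ∨ F1 G p4 p3 p2 p1 v ∨ N1 G p4 p3 p2 p1 v := by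
  have hP := h.hP
  obtain ⟨h12, h23, h34, h13, h24, h14⟩ := h.hP
  obtain ⟨x1, x2, x3, x4⟩ := h.hx
  have hvW := WW_of_W0 hv
  have n0110 := fun e2 e3 e1 => no0110 h.hc.hbf hP (x := v) e2 e3 e1
  have nPE := W0_not_PE hv
  have nc := W0_not_cen hv
  have na := W0_not_ant hv
  -- 100? impossible
  have c1 : ¬ (G.Adj v p1 ∧ ¬ G.Adj v p2 ∧ ¬ G.Adj v p3) := by
    rintro ⟨e1, e2, e3⟩
    have hp := h.pat (q1 := v) (q2 := p1) (q3 := p2) (q4 := p3)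
      ⟨e1, h12, h23, e2, h13, e3⟩ hvW h.w1 h.w2 h.w3
    exact x2 (hp.2.1.1 x1)
  have c2 : ¬ (G.Adj v p4 ∧ ¬ G.Adj v p3 ∧ ¬ G.Adj v p2) := by
    rintro ⟨e4, e3, e2⟩
    have hp := h.pat (q1 := v) (q2 := p4) (q3 := p3) (q4 := p2)
      ⟨e4, h34.symm, h23.symm, e3, by first | assumption | (rw [SimpleGraph.adj_comm]; assumption), e2⟩ hvW h.w4 h.w3 h.w2
    exact x3 (hp.2.1.1 x4)
  -- 1011 impossible
  have c3 : ¬ (G.Adj v p1 ∧ ¬ G.Adj v p2 ∧ G.Adj v p4) := by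
    rintro ⟨e1, e2, e4⟩
    have hp := h.pat (q1 := p2) (q2 := p1) (q3 := v) (q4 := p4)
      ⟨h12.symm, e1.symm, e4, by first | assumption | (rw [SimpleGraph.adj_comm]; assumption), h14, h24⟩ h.w2 h.w1 hvW h.w4
    exact x2 (hp.1.2 x4)
  have c4 : ¬ (G.Adj v p4 ∧ ¬ G.Adj v p3 ∧ G.Adj v p1) := by
    rintro ⟨e4, e3, e1⟩
    have hp := h.pat (q1 := p3) (q2 := p4) (q3 := v) (q4 := p1)
      ⟨h34, e4.symm, e1, by first | assumption | (rw [SimpleGraph.adj_comm]; assumption), by first | assumption | (rw [SimpleGraph.adj_comm]; assumption), by first | assumption | (rw [SimpleGraph.adj_comm]; assumption)⟩ h.w3 h.w4 hvW h.w1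
    exact x3 (hp.1.2 x1)
  unfold PE at nPE
  unfold Cen at nc
  unfold Ant at na
  unfold N1 F1
  clear hv hvW hP h
  generalize G.Adj v p1 = e1 at *
  generalize G.Adj v p2 = e2 at *
  generalize G.Adj v p3 = e3 at *
  generalize G.Adj v p4 = e4 at *
  by_cases h1 : e1 <;> by_cases h2 : e2 <;> by_cases h3 : e3 <;> by_cases h4 : e4 <;>
    simp_all

theorem Ctx4.x_N1 (h : Ctx4 G p1 p2 p3 p4 z x0 a0) {v : V} (hv : N1 G p1 p2 p3 p4 v) :
    G.Adj x0 v := by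
  obtain ⟨h12, h23, h34, h13, h24, h14⟩ := h.hP
  have hp := h.pat (q1 := v) (q2 := p2) (q3 := p3) (q4 := p4)
    ⟨hv.1, h23, h34, hv.2.1, h24, hv.2.2⟩ (WW_of_W0 (N1_W0 hv)) h.w2 h.w3 h.w4
  exact hp.1.2 h.hx.2.2.2

theorem Ctx4.x_F1 (h : Ctx4 G p1 p2 p3 p4 z x0 a0) {v : V} (hv : F1 G p1 p2 p3 p4 v) :
    ¬ G.Adj x0 v := by
  obtain ⟨h12, h23, h34, h13, h24, h14⟩ := h.hP
  have hp := h.pat (q1 := p1) (q2 := v) (q3 := p3) (q4 := p4)
    ⟨hv.1.symm, hv.2.1, h34, h13, hv.2.2, h14⟩ h.w1 (WW_of_W0 (F1_W0 hv)) h.w3 h.w4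
  exact fun h' => h.hx.2.2.1 (hp.2.1.1 h')

/-- the anticentres are anticomplete to `W0` (first half) -/
theorem Ctx4.A_N1 (h : Ctx4 G p1 p2 p3 p4 z x0 a0) {v m : V} (hv : Ant G p1 p2 p3 p4 v)
    (hm : N1 G p1 p2 p3 p4 m) : ¬ G.Adj v m := by
  intro hvm
  obtain ⟨h12, h23, h34, h13, h24, h14⟩ := h.hP
  by_cases e1 : G.Adj m p1
  · exact hm.2.1 (beta12 h.hc.hbf h.hP hv hvm.symm e1 hm.1).1
  · have hmW := WW_of_W0 (N1_W0 hm)
    have hp := h.pat (q1 := v) (q2 := m) (q3 := p2) (q4 := p3)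
      ⟨hvm, hm.1, h23, hv.2.1, hm.2.1, hv.2.2.1⟩ (WW_step hv hmW hvm) hmW h.w2 h.w3
    exact h.hx.2.1 (hp.2.1.1 (h.x_N1 hm))

theorem Ctx4.A_F1 (h : Ctx4 G p1 p2 p3 p4 z x0 a0) {v m : V} (hv : Ant G p1 p2 p3 p4 v)
    (hm : F1 G p1 p2 p3 p4 m) : ¬ G.Adj v m := by
  intro hvm
  obtain ⟨h12, h23, h34, h13, h24, h14⟩ := h.hP
  by_cases e2 : G.Adj m p2
  · exact hm.2.2 (beta12 h.hc.hbf h.hP hv hvm.symm hm.1 e2).2
  · have hmW := WW_of_W0 (F1_W0 hm)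
    have hp := h.pat (q1 := v) (q2 := m) (q3 := p1) (q4 := p2)
      ⟨hvm, hm.1, h12, hv.1, e2, hv.2.1⟩ (WW_step hv hmW hvm) hmW h.w1 h.w2
    exact h.x_F1 hm (hp.2.1.2 h.hx.1)

theorem Ctx4.A_W0 (h : Ctx4 G p1 p2 p3 p4 z x0 a0) {v m : V} (hv : Ant G p1 p2 p3 p4 v)
    (hm : W0 G p1 p2 p3 p4 m) : ¬ G.Adj v m := by
  rcases h.class hm with h' | h' | h' | h'
  · exact h.A_N1 hv h'
  · exact h.A_F1 hv h'
  · exact h.symm.A_F1 hv.symm h'
  · exact h.symm.A_N1 hv.symm h'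

/-- `N1` - `F1` complete -/
theorem Ctx4.N1F1 (h : Ctx4 G p1 p2 p3 p4 z x0 a0) {n f : V} (hn : N1 G p1 p2 p3 p4 n)
    (hf : F1 G p1 p2 p3 p4 f) : G.Adj n f := by
  obtain ⟨h12, h23, h34, h13, h24, h14⟩ := h.hP
  have hbf := h.hc.hbf
  have hzn := h.cen (WW_of_W0 (N1_W0 hn))
  have hzf := h.cen (WW_of_W0 (F1_W0 hf))
  have hz2 := h.hz.2.1
  have hxn := h.x_N1 hn
  have hxf := h.x_F1 hf
  have hxz := h.xz
  have hx2 := h.hx.2.1
  obtain ⟨n2, n3, n4⟩ := hn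
  obtain ⟨f1, f3, f4⟩ := hf
  by_contra hnf
  by_cases e2 : G.Adj f p2
  · -- triangle p2 f p3, pendants n - p2, p4 - p3
    exact n4 (hbf p2 p3 f n p4 h23 e2.symm f3.symm n2 h34.symm n3 hnf (by first | assumption | (rw [SimpleGraph.adj_comm]; assumption)) (by first | assumption | (rw [SimpleGraph.adj_comm]; assumption)))
  · -- triangle n z p2, pendants x0 - n, f - z
    exact hxf (hbf n z p2 x0 f hzn.symm n2 hz2 hxn hzf.symm hxz hx2 (by first | assumption | (rw [SimpleGraph.adj_comm]; assumption)) e2)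

/-- `F1` - `F2` complete -/
theorem Ctx4.F1F2 (h : Ctx4 G p1 p2 p3 p4 z x0 a0) {f g : V} (hf : F1 G p1 p2 p3 p4 f)
    (hg : F1 G p4 p3 p2 p1 g) : G.Adj f g := by
  have hbf := h.hc.hbf
  have hzf := h.cen (WW_of_W0 (F1_W0 hf))
  have hzg := h.cen (WW_of_W0 (F1_W0 hg).symm)
  have hz1 := h.hz.1
  have hxf := h.x_F1 hf
  have hxg := h.symm.x_F1 hg
  have hxz := h.xz
  have hx1 := h.hx.1
  obtain ⟨f1, f3, f4⟩ := hf
  obtain ⟨g4, g2, g1⟩ := hg
  by_contra hfg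
  -- triangle p1 z f, pendants x0 - p1, g - z
  exact hxg (hbf p1 z f x0 g hz1.symm f1.symm hzf hx1 hzg.symm hxz hxf g1 (by first | assumption | (rw [SimpleGraph.adj_comm]; assumption)))

/-- `N1` - `N2` anticomplete -/
theorem Ctx4.N1N2 (h : Ctx4 G p1 p2 p3 p4 z x0 a0) {n m : V} (hn : N1 G p1 p2 p3 p4 n)
    (hm : N1 G p4 p3 p2 p1 m) : ¬ G.Adj n m := by
  intro hnm
  have hbf := h.hc.hbf
  have han := h.ant (WW_of_W0 (N1_W0 hn))
  have ham := h.ant (WW_of_W0 (N1_W0 hm).symm)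
  have hxn := h.x_N1 hn
  have hxm := h.symm.x_N1 hm
  have hx2 := h.hx.2.1
  have ha2 := h.ha.2.1
  have hxa := h.hxa
  obtain ⟨n2, n3, n4⟩ := hn
  obtain ⟨m3, m2, m1⟩ := hm
  -- triangle x0 n m, pendants a0 - x0, p2 - n
  exact ha2 (hbf x0 n m a0 p2 hxn hxm hnm hxa.symm n2.symm han ham (by first | assumption | (rw [SimpleGraph.adj_comm]; assumption)) (by first | assumption | (rw [SimpleGraph.adj_comm]; assumption)))

/-- `N1` - `F2` anticomplete -/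
theorem Ctx4.N1F2 (h : Ctx4 G p1 p2 p3 p4 z x0 a0) {n g : V} (hn : N1 G p1 p2 p3 p4 n)
    (hg : F1 G p4 p3 p2 p1 g) : ¬ G.Adj n g := by
  intro hng
  obtain ⟨h12, h23, h34, h13, h24, h14⟩ := h.hP
  have hbf := h.hc.hbf
  have han := h.ant (WW_of_W0 (N1_W0 hn))
  have hag := h.ant (WW_of_W0 (F1_W0 hg).symm)
  have hxn := h.x_N1 hn
  have hxg := h.symm.x_F1 hg
  have hx1 := h.hx.1
  have ha1 := h.ha.1
  have hxa := h.hxa
  obtain ⟨n2, n3, n4⟩ := hn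
  obtain ⟨g4, g2, g1⟩ := hg
  by_cases e1 : G.Adj n p1
  · -- triangle x0 n p1, pendants a0 - x0, g - n
    exact hag (hbf x0 n p1 a0 g hxn hx1 e1 hxa.symm hng.symm han ha1 (by first | assumption | (rw [SimpleGraph.adj_comm]; assumption)) g1)
  · -- triangle g p2 n, pendants p4 - g, p1 - p2
    exact h14 (hbf g p2 n p4 p1 g2 hng.symm n2.symm g4.symm h12 (by first | assumption | (rw [SimpleGraph.adj_comm]; assumption)) (by first | assumption | (rw [SimpleGraph.adj_comm]; assumption)) (by first | assumption | (rw [SimpleGraph.adj_comm]; assumption))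
      (by first | assumption | (rw [SimpleGraph.adj_comm]; assumption))).symm

/-- vertices of pattern 1001 are complete to `N1` -/
theorem Ctx4.EN1 (h : Ctx4 G p1 p2 p3 p4 z x0 a0) {x n : V} (hx : PE G p1 p2 p3 p4 x)
    (hn : N1 G p1 p2 p3 p4 n) : G.Adj x n := by
  obtain ⟨h12, h23, h34, h13, h24, h14⟩ := h.hP
  have hzn := h.cen (WW_of_W0 (N1_W0 hn))
  have hxz : ¬ G.Adj x z := PE_cen h.hc h.hP h.hz hx
  exact bull_c h.hc.hbf h34.symm h.hz.2.2.2 h.hz.2.2.1 hzn hx.2.2.2 hx.2.2.1 hxz hn.2.2 hn.2.1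

/-- vertices of pattern 1001 are anticomplete to `F1` -/
theorem Ctx4.EF1 (h : Ctx4 G p1 p2 p3 p4 z x0 a0) {x f : V} (hx : PE G p1 p2 p3 p4 x)
    (hf : F1 G p1 p2 p3 p4 f) : ¬ G.Adj x f := by
  intro hxf
  obtain ⟨h12, h23, h34, h13, h24, h14⟩ := h.hP
  have hzf := h.cen (WW_of_W0 (F1_W0 hf))
  have hxz : ¬ G.Adj x z := PE_cen h.hc h.hP h.hz hx
  have hP' : IsP4 G p1 f p3 p4 := ⟨hf.1.symm, hf.2.1, h34, h13, hf.2.2, h14⟩
  exact hxz (M2_cen h.hc hP' (z := z) ⟨h.hz.1, hzf, h.hz.2.2.1, h.hz.2.2.2⟩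
    ⟨Or.inl ⟨hx.1, hxf⟩, fun h' => hx.2.2.1 h'.2.2.1⟩)

theorem Ctx4.N1_sub (h : Ctx4 G p1 p2 p3 p4 z x0 a0) {v : V} (hv : N1 G p1 p2 p3 p4 v) :
    v = p1 := by
  have hP := h.hP
  obtain ⟨h12, h23, h34, h13, h24, h14⟩ := h.hP
  by_contra hne
  have hmod := h.hc.hpr {u | N1 G p1 p2 p3 p4 u}
    ⟨v, hv, p1, ⟨h12, h13, h14⟩, hne⟩ (by
      intro u hu
      have hu' : ¬ N1 G p1 p2 p3 p4 u := hu
      rcases classify h.hc.hbf hP u with h' | h' | h' | h' | h'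
      · left
        intro n hn
        exact (W0_cen h.hc hP h' (N1_W0 hn)).symm
      · right
        intro n hn
        exact h.A_W0 h' (N1_W0 hn)
      · left
        intro n hn
        exact h.EN1 h' hn
      all_goals
        have hW : W0 G p1 p2 p3 p4 u := by unfold W0; tauto
        rcases h.class hW with h'' | h'' | h'' | h''
        · exact absurd h'' hu'
        · left
          intro n hn
          exact (h.N1F1 hn h'').symm
        · right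
          intro n hn hun
          exact h.N1F2 hn h'' hun.symm
        · right
          intro n hn hun
          exact h.N1N2 hn h'' hun.symm)
  have : p2 ∈ {u | N1 G p1 p2 p3 p4 u} := by rw [hmod]; trivial
  exact this.2.1 h23

theorem Ctx4.F1_sub (h : Ctx4 G p1 p2 p3 p4 z x0 a0) {v : V} (hv : F1 G p1 p2 p3 p4 v) :
    v = p2 := by
  have hP := h.hP
  obtain ⟨h12, h23, h34, h13, h24, h14⟩ := h.hP
  by_contra hne
  have hmod := h.hc.hpr {u | F1 G p1 p2 p3 p4 u}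
    ⟨v, hv, p2, ⟨h12.symm, h23, h24⟩, hne⟩ (by
      intro u hu
      have hu' : ¬ F1 G p1 p2 p3 p4 u := hu
      rcases classify h.hc.hbf hP u with h' | h' | h' | h' | h'
      · left
        intro n hn
        exact (W0_cen h.hc hP h' (F1_W0 hn)).symm
      · right
        intro n hn
        exact h.A_W0 h' (F1_W0 hn)
      · right
        intro n hn
        exact h.EF1 h' hn
      all_goals
        have hW : W0 G p1 p2 p3 p4 u := by unfold W0; tauto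
        rcases h.class hW with h'' | h'' | h'' | h''
        · left
          intro n hn
          exact h.N1F1 h'' hn
        · exact absurd h'' hu'
        · left
          intro n hn
          exact (h.F1F2 hn h'').symm
        · right
          intro n hn
          exact h.symm.N1F2 h'' hn)
  have : p1 ∈ {u | F1 G p1 p2 p3 p4 u} := by rw [hmod]; trivial
  exact h13 this.2.1

/-- (4g) -/
theorem Ctx4.final (h : Ctx4 G p1 p2 p3 p4 z x0 a0) (v : V) :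
    Cen G p1 p2 p3 p4 v ∨ Ant G p1 p2 p3 p4 v ∨ PE G p1 p2 p3 p4 v ∨
      v = p1 ∨ v = p2 ∨ v = p3 ∨ v = p4 := by
  rcases classify h.hc.hbf h.hP v with h' | h' | h' | h' | h'
  · exact Or.inl h'
  · exact Or.inr (Or.inl h')
  · exact Or.inr (Or.inr (Or.inl h'))
  all_goals
    have hW : W0 G p1 p2 p3 p4 v := by unfold W0; tauto
    right; right; right
    rcases h.class hW with h'' | h'' | h'' | h''
    · exact Or.inl (h.N1_sub h'')
    · exact Or.inr (Or.inl (h.F1_sub h''))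
    · exact Or.inr (Or.inr (Or.inl (h.symm.F1_sub h'')))
    · exact Or.inr (Or.inr (Or.inr (h.symm.N1_sub h'')))

end C4

/-- Steps (4a)-(4g) -/
theorem gem_structure (hc : GCtx G) {p1 p2 p3 p4 z : V} (hP : IsP4 G p1 p2 p3 p4)
    (hz : Cen G p1 p2 p3 p4 z) :
    (∀ v, Cen G p1 p2 p3 p4 v ∨ Ant G p1 p2 p3 p4 v ∨ PE G p1 p2 p3 p4 v ∨
      v = p1 ∨ v = p2 ∨ v = p3 ∨ v = p4) ∧
    (∀ u v, Cen G p1 p2 p3 p4 u → PE G p1 p2 p3 p4 v → ¬ G.Adj u v) := by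
  obtain ⟨x0, a0, hx, ha, haW, hxa⟩ := exists_x0 hc hP hz
  refine ⟨(Ctx4.mk hc hP hz hx ha haW hxa).final, ?_⟩
  intro u v hu hv huv
  exact PE_cen hc hP hu hv huv.symm

end BullPD
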