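import Pool.Agent.H8.BullGadget

/-!
Step (4h): the division of `G` from a division of the gadget.
-/

namespace BullPD

open Finset

variable {V : Type*} [Fintype V] [DecidableEq V] {G : SimpleGraph V}

section Gad

variable {p1 p2 p3 p4 : V}

/-- the part of a clique outside the path -/
def K0 (p1 p2 p3 p4 : V) (K : Finset V) : Finset V := K \ {p1, p2, p3, p4}

omit [Fintype V] in
theorem mem_K0 {K : Finset V} {y : V} :
    y ∈ K0 p1 p2 p3 p4 K ↔ y ∈ K ∧ y ≠ p1 ∧ y ≠ p2 ∧ y ≠ p3 ∧ y ≠ p4 := by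
  simp [K0]

/-- a clique consisting of centres has weight at most `om - al` -/
theorem GadCtx.cen_clique (h : GadCtx G p1 p2 p3 p4) (w : V → ℕ) {K : Finset V}
    (hK : G.IsClique (K : Set V)) (hc : ∀ y ∈ K, Cen G p1 p2 p3 p4 y) :
    ∑ y ∈ K, w y + max (w p1 + w p2) (max (w p2 + w p3) (w p3 + w p4)) ≤ omW G w univ := by
  obtain ⟨n12, n13, n14, n23, n24, n34⟩ := h.ne
  obtain ⟨h12, h23, h34, h13, h24, h14⟩ := h.hP
  have hn : ∀ y ∈ K, y ≠ p1 ∧ y ≠ p2 ∧ y ≠ p3 ∧ y ≠ p4 := fun y hy => Cen.ne h (hc y hy)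
  have key : ∀ a b : V, G.Adj a b → a ∉ K → b ∉ K → (∀ y ∈ K, G.Adj y a) →
      (∀ y ∈ K, G.Adj y b) → ∑ y ∈ K, w y + (w a + w b) ≤ omW G w univ := by
    intro a b hab ha hb hKa hKb
    have h1 := le_omW (G := G) (f := w) (S := univ) (K := insert a (insert b K))
      (Finset.subset_univ _) (by
        apply clique_insert
        · exact clique_insert hK hKb
        · intro y hy
          rcases Finset.mem_insert.1 hy with rfl | hy
          · exact hab.symm
          · exact hKa y hy)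
    rw [Finset.sum_insert, Finset.sum_insert hb] at h1
    · omega
    · intro hh
      rcases Finset.mem_insert.1 hh with hh | hh
      · exact hab.ne hh
      · exact ha hh
  have k1 := key p1 p2 h12 (fun hh => (hn _ hh).1 rfl) (fun hh => (hn _ hh).2.1 rfl)
    (fun y hy => (hc y hy).1) (fun y hy => (hc y hy).2.1)
  have k2 := key p2 p3 h23 (fun hh => (hn _ hh).2.1 rfl) (fun hh => (hn _ hh).2.2.1 rfl)
    (fun y hy => (hc y hy).2.1) (fun y hy => (hc y hy).2.2.1)
  have k3 := key p3 p4 h34 (fun hh => (hn _ hh).2.2.1 rfl) (fun hh => (hn _ hh).2.2.2 rfl)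
    (fun y hy => (hc y hy).2.2.1) (fun y hy => (hc y hy).2.2.2)
  omega

/-- the weight of a clique in terms of its part outside the path -/
theorem GadCtx.sum_le (h : GadCtx G p1 p2 p3 p4) (w : V → ℕ) (hw : w p4 ≤ w p1) {K : Finset V}
    (hK : G.IsClique (K : Set V)) :
    ((p2 ∈ K ∨ p3 ∈ K) ∧ (∀ y ∈ K0 p1 p2 p3 p4 K, Cen G p1 p2 p3 p4 y) ∧
      ∑ y ∈ K, w y ≤ ∑ y ∈ K0 p1 p2 p3 p4 K, w y +
        max (w p1 + w p2) (max (w p2 + w p3) (w p3 + w p4))) ∨
    ((p2 ∉ K ∧ p3 ∉ K ∧ (p1 ∈ K ∨ p4 ∈ K)) ∧ (∀ y ∈ K0 p1 p2 p3 p4 K, G.Adj y p1) ∧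
      ∑ y ∈ K, w y ≤ ∑ y ∈ K0 p1 p2 p3 p4 K, w y + w p1) ∨
    (p1 ∉ K ∧ p2 ∉ K ∧ p3 ∉ K ∧ p4 ∉ K ∧ K0 p1 p2 p3 p4 K = K) := by
  obtain ⟨n12, n13, n14, n23, n24, n34⟩ := h.ne
  obtain ⟨h12, h23, h34, h13, h24, h14⟩ := h.hP
  have hsplit : ∑ y ∈ K, w y = ∑ y ∈ K0 p1 p2 p3 p4 K, w y +
      ((if p1 ∈ K then w p1 else 0) + (if p2 ∈ K then w p2 else 0) +
        (if p3 ∈ K then w p3 else 0) + (if p4 ∈ K then w p4 else 0)) := by
    have e1 : ∑ y ∈ K, w y = ∑ y ∈ K0 p1 p2 p3 p4 K, w y + ∑ y ∈ K ∩ {p1, p2, p3, p4}, w y := by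
      rw [K0, ← Finset.sum_union (Finset.disjoint_sdiff_inter K _), Finset.sdiff_union_inter]
    rw [e1]
    congr 1
    have e2 : ∑ y ∈ K ∩ {p1, p2, p3, p4}, w y
        = ∑ y ∈ ({p1, p2, p3, p4} : Finset V), if y ∈ K then w y else 0 := by
      rw [Finset.inter_comm, ← Finset.filter_mem_eq_inter, Finset.sum_filter]
    rw [e2, Finset.sum_insert (by simp [n12, n13, n14]), Finset.sum_insert (by simp [n23, n24]),
      Finset.sum_insert (by simp [n34]), Finset.sum_singleton]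
    ring
  have q13 : ¬ (p1 ∈ K ∧ p3 ∈ K) := fun hh => h13 (hK hh.1 hh.2 n13)
  have q14 : ¬ (p1 ∈ K ∧ p4 ∈ K) := fun hh => h14 (hK hh.1 hh.2 n14)
  have q24 : ¬ (p2 ∈ K ∧ p4 ∈ K) := fun hh => h24 (hK hh.1 hh.2 n24)
  by_cases k2 : p2 ∈ K
  · left
    refine ⟨Or.inl k2, ?_, ?_⟩
    · intro y hy
      rw [mem_K0] at hy
      exact h.nbr2 (hK hy.1 k2 hy.2.2.1) hy.2.1 hy.2.2.2.1
    · rw [hsplit]
      have k4 : p4 ∉ K := fun k4 => q24 ⟨k2, k4⟩
      by_cases k1 : p1 ∈ K
      · have k3 : p3 ∉ K := fun k3 => q13 ⟨k1, k3⟩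
        simp only [k1, k2, k3, k4, if_true, if_false]; omega
      · by_cases k3 : p3 ∈ K <;> simp only [k1, k2, k3, k4, if_true, if_false] <;> omega
  · by_cases k3 : p3 ∈ K
    · left
      refine ⟨Or.inr k3, ?_, ?_⟩
      · intro y hy
        rw [mem_K0] at hy
        exact h.nbr3 (hK hy.1 k3 hy.2.2.2.1) hy.2.2.1 hy.2.2.2.2
      · rw [hsplit]
        have k1 : p1 ∉ K := fun k1 => q13 ⟨k1, k3⟩
        by_cases k4 : p4 ∈ K <;> simp only [k1, k2, k3, k4, if_true, if_false] <;> omega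
    · right
      by_cases k14 : p1 ∈ K ∨ p4 ∈ K
      · left
        refine ⟨⟨k2, k3, k14⟩, ?_, ?_⟩
        · intro y hy
          rw [mem_K0] at hy
          rcases k14 with k1 | k4
          · exact hK hy.1 k1 hy.2.1
          · rcases h.nbr4 (hK hy.1 k4 hy.2.2.2.2) hy.2.2.2.1 with h' | h'
            · exact h'.1
            · exact h'.1
        · rw [hsplit]
          rcases k14 with k1 | k4
          · have k4 : p4 ∉ K := fun k4 => q14 ⟨k1, k4⟩
            simp only [k1, k2, k3, k4, if_true, if_false]; omega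
          · have k1 : p1 ∉ K := fun k1 => q14 ⟨k1, k4⟩
            simp only [k1, k2, k3, k4, if_true, if_false]; omega
      · right
        push Not at k14
        refine ⟨k14.1, k2, k3, k14.2, ?_⟩
        ext y
        rw [mem_K0]
        constructor
        · exact fun hh => hh.1
        · intro hy
          refine ⟨hy, ?_, ?_, ?_, ?_⟩ <;> rintro rfl
          · exact k14.1 hy
          · exact k2 hy
          · exact k3 hy
          · exact k14.2 hy

/-- (4h), the case `w p4 ≤ w p1` -/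
theorem GadCtx.divide_aux (h : GadCtx G p1 p2 p3 p4)
    (hIH : ∀ S : Finset V, S ≠ univ → S.Nonempty → ∀ w : V → ℕ, (∀ x, 0 < w x) → Dv G w S)
    (w : V → ℕ) (hw : ∀ x, 0 < w x) (h41 : w p4 ≤ w p1) : Dv G w univ := by
  obtain ⟨n12, n13, n14, n23, n24, n34⟩ := h.ne
  have hP := h.hP
  obtain ⟨h12, h23, h34, h13, h24, h14⟩ := h.hP
  set al : ℕ := max (w p1 + w p2) (max (w p2 + w p3) (w p3 + w p4)) with hal
  set S1 : Finset V := (univ.erase p2).erase p4 with hS1
  have mS : ∀ y, y ∈ S1 ↔ y ≠ p4 ∧ y ≠ p2 := by intro y; simp [hS1]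
  let w1 : V → ℕ := fun y => if y = p3 then al else w y
  have w13 : w1 p3 = al := by simp [w1]
  have w1n : ∀ y, y ≠ p3 → w1 y = w y := fun y hy => by simp [w1, hy]
  have hal_pos : 0 < al := by have := hw p1; omega
  obtain ⟨A1, hA1, hA1p, hA1w⟩ := hIH S1 (by
    intro hh
    have : p2 ∈ S1 := by rw [hh]; exact Finset.mem_univ _
    exact ((mS p2).1 this).2 rfl) ⟨p1, (mS p1).2 ⟨n14, n12⟩⟩ w1 (by
    intro x
    by_cases hx : x = p3
    · rw [hx, w13]; exact hal_pos
    · rw [w1n x hx]; exact hw x)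
  have a2 : p2 ∉ A1 := fun hh => ((mS p2).1 (hA1 hh)).2 rfl
  have a4 : p4 ∉ A1 := fun hh => ((mS p4).1 (hA1 hh)).1 rfl
  -- the clique number of the gadget
  have hom : omW G w1 S1 ≤ omW G w univ := by
    rw [omW_le_iff]
    intro K hK hc
    by_cases k3 : p3 ∈ K
    · have hsum : ∑ y ∈ K.erase p3, w1 y = ∑ y ∈ K.erase p3, w y := by
        apply Finset.sum_congr rfl
        intro y hy
        rw [Finset.mem_erase] at hy
        exact w1n y hy.1
      rw [← Finset.add_sum_erase _ _ k3, hsum, w13]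
      have := h.cen_clique w (K := K.erase p3) (hc.subset (by simp)) (by
        intro y hy
        rw [Finset.mem_erase] at hy
        have hyS := (mS y).1 (hK hy.2)
        exact h.nbr3 (hc hy.2 k3 hy.1) hyS.2 hyS.1)
      omega
    · rw [Finset.sum_congr rfl (fun y hy => w1n y (by rintro rfl; exact k3 hy))]
      exact le_omW (Finset.subset_univ _) hc
  have hB1 : ∀ K : Finset V, K ⊆ S1 \ A1 → G.IsClique (K : Set V) →
      ∑ y ∈ K, w1 y < omW G w univ := by
    intro K hK hc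
    have := le_omW (f := w1) hK hc
    omega
  -- outside cliques
  have hpos : 0 < omW G w univ := by omega
  have hout : ∀ K : Finset V, G.IsClique (K : Set V) → p1 ∉ K → p2 ∉ K → p3 ∉ K → p4 ∉ K →
      (∀ y ∈ K, y ∉ A1) → ∑ y ∈ K, w y < omW G w univ := by
    intro K hc k1 k2 k3 k4 hKA
    have h1 := hB1 K (by
      intro y hy
      rw [Finset.mem_sdiff, mS]
      exact ⟨⟨by rintro rfl; exact k4 hy, by rintro rfl; exact k2 hy⟩, hKA y hy⟩) hc
    rwa [Finset.sum_congr rfl (fun y hy => w1n y (by rintro rfl; exact k3 hy))] at h1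
  -- replace by p3
  have hrep3 : ∀ K : Finset V, G.IsClique (K : Set V) → p3 ∉ A1 →
      (∀ y ∈ K0 p1 p2 p3 p4 K, Cen G p1 p2 p3 p4 y) → (∀ y ∈ K0 p1 p2 p3 p4 K, y ∉ A1) →
      ∑ y ∈ K0 p1 p2 p3 p4 K, w y + al < omW G w univ := by
    intro K hc ha3 hcen hKA
    have hc0 : G.IsClique ((K0 p1 p2 p3 p4 K : Finset V) : Set V) :=
      hc.subset (by intro y hy; exact (mem_K0.1 hy).1)
    have n3 : p3 ∉ K0 p1 p2 p3 p4 K := fun hh => (mem_K0.1 hh).2.2.2.1 rfl
    have h1 := hB1 (insert p3 (K0 p1 p2 p3 p4 K)) (by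
      intro y hy
      rw [Finset.mem_sdiff, mS]
      rcases Finset.mem_insert.1 hy with rfl | hy
      · exact ⟨⟨n34, n23.symm⟩, ha3⟩
      · have := mem_K0.1 hy
        exact ⟨⟨this.2.2.2.2, this.2.2.1⟩, hKA y hy⟩)
      (clique_insert hc0 (fun y hy => (hcen y hy).2.2.1))
    have e1 : ∑ y ∈ K0 p1 p2 p3 p4 K, w1 y = ∑ y ∈ K0 p1 p2 p3 p4 K, w y :=
      Finset.sum_congr rfl (fun y hy => w1n y (mem_K0.1 hy).2.2.2.1)
    rw [Finset.sum_insert n3, w13, e1] at h1
    omega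
  -- replace by p1
  have hrep1 : ∀ K : Finset V, G.IsClique (K : Set V) → p1 ∉ A1 →
      (∀ y ∈ K0 p1 p2 p3 p4 K, G.Adj y p1) → (∀ y ∈ K0 p1 p2 p3 p4 K, y ∉ A1) →
      ∑ y ∈ K0 p1 p2 p3 p4 K, w y + w p1 < omW G w univ := by
    intro K hc ha1 hadj hKA
    have hc0 : G.IsClique ((K0 p1 p2 p3 p4 K : Finset V) : Set V) :=
      hc.subset (by intro y hy; exact (mem_K0.1 hy).1)
    have n1 : p1 ∉ K0 p1 p2 p3 p4 K := fun hh => (mem_K0.1 hh).2.1 rfl
    have h1 := hB1 (insert p1 (K0 p1 p2 p3 p4 K)) (by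
      intro y hy
      rw [Finset.mem_sdiff, mS]
      rcases Finset.mem_insert.1 hy with rfl | hy
      · exact ⟨⟨n14, n12⟩, ha1⟩
      · have := mem_K0.1 hy
        exact ⟨⟨this.2.2.2.2, this.2.2.1⟩, hKA y hy⟩)
      (clique_insert hc0 hadj)
    have e1 : ∑ y ∈ K0 p1 p2 p3 p4 K, w1 y = ∑ y ∈ K0 p1 p2 p3 p4 K, w y :=
      Finset.sum_congr rfl (fun y hy => w1n y (mem_K0.1 hy).2.2.2.1)
    rw [Finset.sum_insert n1, w1n p1 n13, e1] at h1
    omega
  have fin : ∀ A : Finset V, (∀ K : Finset V, K ⊆ univ \ A → G.IsClique (K : Set V) →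
      ∑ y ∈ K, w y < omW G w univ) → omW G w (univ \ A) < omW G w univ := by
    intro A hA
    obtain ⟨K, hK, hc, hs⟩ := exists_omW G w (univ \ A)
    rw [← hs]
    exact hA K hK hc
  by_cases a1 : p1 ∈ A1
  · by_cases a3 : p3 ∈ A1
    · -- case (4)
      refine ⟨insert p2 (insert p4 (A1.erase p3)), Finset.subset_univ _,
        h.wperf4 hA1p a1 a3 a2 a4, fin _ ?_⟩
      intro K hK hc
      have hKn : ∀ y ∈ K, y ≠ p2 ∧ y ≠ p4 ∧ y ≠ p1 ∧ (y ≠ p3 → y ∉ A1) := by
        intro y hy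
        have := (Finset.mem_sdiff.1 (hK hy)).2
        simp only [Finset.mem_insert, Finset.mem_erase, not_or, not_and] at this
        refine ⟨this.1, this.2.1, ?_, this.2.2⟩
        rintro rfl
        exact this.2.2 n13 a1
      have k1 : p1 ∉ K := fun hh => (hKn _ hh).2.2.1 rfl
      have k2 : p2 ∉ K := fun hh => (hKn _ hh).1 rfl
      have k4 : p4 ∉ K := fun hh => (hKn _ hh).2.1 rfl
      by_cases k3 : p3 ∈ K
      · have hle := le_omW (G := G) (f := w) (S := univ) (K := insert p2 K)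
          (Finset.subset_univ _) (clique_insert hc (by
            intro y hy
            by_cases hy3 : y = p3
            · subst hy3; exact h23.symm
            · exact (h.nbr3 (hc hy k3 hy3) (hKn y hy).1 (hKn y hy).2.1).2.1))
        rw [Finset.sum_insert k2] at hle
        have := hw p2
        omega
      · exact hout K hc k1 k2 k3 k4 (fun y hy => (hKn y hy).2.2.2 (by rintro rfl; exact k3 hy))
    · -- case (2)
      refine ⟨insert p4 A1, Finset.subset_univ _, ?_, fin _ ?_⟩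
      · apply hA1p.twin a1 a4
        intro y hy hy1
        have hy2 : y ≠ p2 := by rintro rfl; exact a2 hy
        have hy3 : y ≠ p3 := by rintro rfl; exact a3 hy
        constructor
        · intro hadj
          rcases h.nbr4 hadj hy3 with h' | h'
          · exact h'.1
          · exact h'.1
        · intro hadj
          rcases h.nbr1 hadj hy2 with h' | h'
          · exact h'.2.2.2
          · exact h'.2.2.2
      · intro K hK hc
        have hKn : ∀ y ∈ K, y ≠ p4 ∧ y ∉ A1 := by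
          intro y hy
          have := (Finset.mem_sdiff.1 (hK hy)).2
          simpa only [Finset.mem_insert, not_or] using this
        have k4 : p4 ∉ K := fun hh => (hKn _ hh).1 rfl
        have k1 : p1 ∉ K := fun hh => (hKn _ hh).2 a1
        rcases h.sum_le w h41 hc with ⟨_, hcen, hs⟩ | ⟨⟨_, _, hk⟩, _, _⟩ | ⟨_, k2, k3, _, _⟩
        · have := hrep3 K hc a3 hcen (fun y hy => (hKn y (mem_K0.1 hy).1).2)
          omega
        · rcases hk with hk | hk
          · exact absurd hk k1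
          · exact absurd hk k4
        · exact hout K hc k1 k2 k3 k4 (fun y hy => (hKn y hy).2)
  · by_cases a3 : p3 ∈ A1
    · -- case (3)
      refine ⟨insert p2 A1, Finset.subset_univ _, ?_, fin _ ?_⟩
      · apply hA1p.twin a3 a2
        intro y hy hy3
        have hy1 : y ≠ p1 := by rintro rfl; exact a1 hy
        have hy2 : y ≠ p2 := by rintro rfl; exact a2 hy
        have hy4 : y ≠ p4 := by rintro rfl; exact a4 hy
        constructor
        · intro hadj
          exact (h.nbr2 hadj hy1 hy3).2.2.1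
        · intro hadj
          exact (h.nbr3 hadj hy2 hy4).2.1
      · intro K hK hc
        have hKn : ∀ y ∈ K, y ≠ p2 ∧ y ∉ A1 := by
          intro y hy
          have := (Finset.mem_sdiff.1 (hK hy)).2
          simpa only [Finset.mem_insert, not_or] using this
        have k2 : p2 ∉ K := fun hh => (hKn _ hh).1 rfl
        have k3 : p3 ∉ K := fun hh => (hKn _ hh).2 a3
        rcases h.sum_le w h41 hc with ⟨hk, _, _⟩ | ⟨_, hadj, hs⟩ | ⟨k1, _, _, k4, _⟩
        · rcases hk with hk | hk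
          · exact absurd hk k2
          · exact absurd hk k3
        · have := hrep1 K hc a1 hadj (fun y hy => (hKn y (mem_K0.1 hy).1).2)
          omega
        · exact hout K hc k1 k2 k3 k4 (fun y hy => (hKn y hy).2)
    · -- case (1)
      refine ⟨A1, Finset.subset_univ _, hA1p, fin _ ?_⟩
      intro K hK hc
      have hKn : ∀ y ∈ K, y ∉ A1 := fun y hy => (Finset.mem_sdiff.1 (hK hy)).2
      rcases h.sum_le w h41 hc with ⟨_, hcen, hs⟩ | ⟨_, hadj, hs⟩ | ⟨k1, k2, k3, k4, _⟩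
      · have := hrep3 K hc a3 hcen (fun y hy => hKn y (mem_K0.1 hy).1)
        omega
      · have := hrep1 K hc a1 hadj (fun y hy => hKn y (mem_K0.1 hy).1)
        omega
      · exact hout K hc k1 k2 k3 k4 hKn

/-- (4h) -/
theorem GadCtx.divide (h : GadCtx G p1 p2 p3 p4)
    (hIH : ∀ S : Finset V, S ≠ univ → S.Nonempty → ∀ w : V → ℕ, (∀ x, 0 < w x) → Dv G w S)
    (w : V → ℕ) (hw : ∀ x, 0 < w x) : Dv G w univ := by
  rcases le_total (w p4) (w p1) with h1 | h1
  · exact h.divide_aux hIH w hw h1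
  · exact h.symm.divide_aux hIH w hw h1

end Gad

/-- Step 4: a minimal counterexample has no gem -/
theorem gemFree_of_gctx (hc : GCtx G)
    (hIH : ∀ S : Finset V, S ≠ univ → S.Nonempty → ∀ w : V → ℕ, (∀ x, 0 < w x) → Dv G w S)
    (w : V → ℕ) (hw : ∀ x, 0 < w x) (hno : ¬ Dv G w univ) : GemFree G := by
  intro z a b c d hP ha hb hc' hd
  obtain ⟨h1, h2⟩ := gem_structure hc hP (z := z) ⟨ha, hb, hc', hd⟩
  exact hno (GadCtx.divide ⟨hP, h1, h2⟩ hIH w hw)

end BullPD
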