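import Pool.Agent.H8.BullGem4
import Pool.Agent.H3.BF.Glue
import Pool.Agent.H78.BF.Step5
import Pool.Agent.H78.BF.Reduce
import Pool.Agent.H85.BP.PRc
import Pool.Agent.H85.BP.CDc

/-!
Glue: step 3 (namespace `Pool.Agent.H85.BP`) in the form needed for step 4 and step 5, and the
induction step.
-/

namespace BullPD

open Finset

variable {V : Type*}

theorem bf_of_bullFree {G : SimpleGraph V} (hb : BullFree G) : Pool.Agent.H85.BP.BF G := by
  intro a b c d e hab hbc hac hda hdb hdc heb hea hec
  exact hb a b c d e hab hac hbc hda heb hdb hdc hea hec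

theorem pri_of_primeG [Fintype V] {G : SimpleGraph V} (hp : PrimeG G) :
    Pool.Agent.H85.BP.Pri G univ := by
  intro H hH h2
  have h := hp (H : Set V) (by
    obtain ⟨p, hp', q, hq, hpq⟩ := Finset.one_lt_card.1 (show 1 < H.card by omega)
    exact ⟨p, hp', q, hq, hpq⟩) (by
    intro v hv
    rcases hH.2 v (Finset.mem_univ v) (by simpa using hv) with h1 | h1
    · left; intro x hx; exact h1 x (by simpa using hx)
    · right; intro x hx; exact h1 x (by simpa using hx))
  exact_mod_cast h

theorem pri_of_mig [DecidableEq V] {G : SimpleGraph V} {I : Finset V} (hI : MIG G I) :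
    Pool.Agent.H85.BP.Pri G I := by
  intro H hH h2
  exact hI.prime hH.1 h2 (fun w hw hwM => hH.2 w hw hwM)

theorem primeOn_of_mig [DecidableEq V] {G : SimpleGraph V} {I : Finset V} (hI : MIG G I) :
    PrimeOn G (I : Set V) := by
  classical
  intro H hH hnt hmod
  obtain ⟨Hf, hHf⟩ : ∃ Hf : Finset V, (Hf : Set V) = H :=
    ⟨I.filter (fun x => x ∈ H), by
      ext x
      simp only [Finset.coe_filter, Set.mem_ofPred_eq]
      exact ⟨fun h => h.2, fun h => ⟨by simpa using hH h, h⟩⟩⟩
  subst hHf
  have h2 : 2 ≤ Hf.card := by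
    obtain ⟨p, hp, q, hq, hpq⟩ := hnt
    have : 1 < Hf.card := Finset.one_lt_card.2 ⟨p, by simpa using hp, q, by simpa using hq, hpq⟩
    omega
  have h := hI.prime (M := Hf) (by simpa using hH) h2 (by
    intro w hw hwM
    rcases hmod w (by simpa using hw) (by simpa using hwM) with h1 | h1
    · left; intro x hx; exact h1 x (by simpa using hx)
    · right; intro x hx; exact h1 x (by simpa using hx))
  rw [h]

/-- split graphs are perfect -/
theorem perfOn_of_split [DecidableEq V] {G : SimpleGraph V} {I N : Finset V}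
    (hst : ∀ u ∈ N, ∀ v ∈ N, ¬ G.Adj u v)
    (hcl : ∀ u ∈ I, ∀ v ∈ I, u ∉ N → v ∉ N → u ≠ v → G.Adj u v) : PerfOn G I := by
  classical
  intro T hT
  obtain ⟨C, hC⟩ : ∃ C, C = T.filter (fun x => x ∉ N) := ⟨_, rfl⟩
  have memC : ∀ x, x ∈ C ↔ x ∈ T ∧ x ∉ N := by intro x; rw [hC, Finset.mem_filter]
  have hCT : C ⊆ T := fun x hx => ((memC x).1 hx).1
  have hCc : G.IsClique (C : Set V) := by
    intro u hu v hv huv
    have hu' := (memC u).1 (by simpa using hu)
    have hv' := (memC v).1 (by simpa using hv)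
    exact hcl u (hT hu'.1) v (hT hv'.1) hu'.2 hv'.2 huv
  have hCle : C.card ≤ omW G (fun _ => 1) T := by
    have := le_omW (G := G) (f := fun _ => 1) hCT hCc
    simpa using this
  -- an injective numbering of `C`
  let g : V → ℕ := fun x => if hx : x ∈ C then (C.equivFin ⟨x, hx⟩ : ℕ) else 0
  have glt : ∀ x ∈ C, g x < C.card := by
    intro x hx
    have : g x = (C.equivFin ⟨x, hx⟩ : ℕ) := by simp [g, hx]
    rw [this]
    exact (C.equivFin ⟨x, hx⟩).2
  have ginj : ∀ x ∈ C, ∀ y ∈ C, g x = g y → x = y := by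
    intro x hx y hy hxy
    have h1 : g x = (C.equivFin ⟨x, hx⟩ : ℕ) := by simp [g, hx]
    have h2 : g y = (C.equivFin ⟨y, hy⟩ : ℕ) := by simp [g, hy]
    rw [h1, h2] at hxy
    have := C.equivFin.injective (Fin.ext hxy)
    exact congrArg Subtype.val this
  refine ⟨fun x => if x ∈ C then g x else if h : ∃ y ∈ C, ¬ G.Adj x y then g h.choose
    else C.card, ?_, ?_⟩
  · intro x hx
    by_cases hxC : x ∈ C
    · simp only [hxC, if_true]
      exact lt_of_lt_of_le (glt x hxC) hCle
    · simp only [hxC, if_false]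
      by_cases h : ∃ y ∈ C, ¬ G.Adj x y
      · simp only [h, dif_pos]
        exact lt_of_lt_of_le (glt _ h.choose_spec.1) hCle
      · simp only [h, dif_neg, not_false_eq_true]
        push Not at h
        have hcl2 : G.IsClique ((insert x C : Finset V) : Set V) :=
          clique_insert hCc (fun y hy => (h y hy).symm)
        have := le_omW (G := G) (f := fun _ => 1) (S := T) (K := insert x C)
          (Finset.insert_subset hx hCT) hcl2
        rw [Finset.sum_const, Finset.card_insert_of_notMem hxC] at this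
        simp only [smul_eq_mul, mul_one] at this
        omega
  · intro x hx y hy hxy
    -- a vertex outside `C` has a colour different from its neighbours in `C`
    have key : ∀ u ∈ C, ∀ v ∈ T, v ∉ C → G.Adj u v →
        g u ≠ (if h : ∃ y ∈ C, ¬ G.Adj v y then g h.choose else C.card) := by
      intro u hu v hv hvC huv
      by_cases h : ∃ y ∈ C, ¬ G.Adj v y
      · simp only [h, dif_pos]
        intro heq
        have h1 := ginj u hu _ h.choose_spec.1 heq
        have h2 := h.choose_spec.2
        rw [← h1] at h2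
        exact h2 huv.symm
      · simp only [h, dif_neg, not_false_eq_true]
        exact (glt u hu).ne
    by_cases hxC : x ∈ C
    · by_cases hyC : y ∈ C
      · simp only [hxC, hyC, if_true]
        exact fun heq => hxy.ne (ginj x hxC y hyC heq)
      · simp only [hxC, hyC, if_true, if_false]
        exact key x hxC y hy hyC hxy
    · by_cases hyC : y ∈ C
      · simp only [hxC, hyC, if_true, if_false]
        exact (key y hyC x hx hxC hxy.symm).symm
      · exfalso
        have hxN : x ∈ N := by
          by_contra hxN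
          exact hxC ((memC x).2 ⟨hx, hxN⟩)
        have hyN : y ∈ N := by
          by_contra hyN
          exact hyC ((memC y).2 ⟨hy, hyN⟩)
        exact hst x hxN y hyN hxy

theorem mig_not_split [DecidableEq V] {G : SimpleGraph V} {I : Finset V} (hI : MIG G I) :
    ¬ Pool.Agent.H85.BP.Split G I := by
  rintro ⟨N, _, hst, hcl⟩
  exact hI.1 (perfOn_of_split hst hcl)

/-- the context of step 4 from step 3 -/
theorem gctx_of [Fintype V] [DecidableEq V] {G : SimpleGraph V} (hb : BullFree G)
    (hp : PrimeG G) (himp : ∀ v : V, ∃ I : Finset V, MIG G I ∧ v ∉ I ∧ ∀ x ∈ I, ¬ G.Adj v x) :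
    GCtx G := by
  have hbf := bf_of_bullFree hb
  have hpr := pri_of_primeG hp
  refine ⟨hb, hp, ?_, ?_, ?_⟩
  · intro v
    obtain ⟨I, hI, hvI, hvA⟩ := himp v
    refine ⟨(I : Set V), ?_, primeOn_of_mig hI, hI.not_bipOn, ?_⟩
    · intro x hx
      have hx' : x ∈ I := by simpa using hx
      exact ⟨fun hh => hvI (hh ▸ hx'), hvA x hx'⟩
    · intro z hz
      exact Pool.Agent.H85.BP.ca hbf hpr (pri_of_mig hI) (by have := hI.five_le_card; omega)
        (mig_not_split hI) (z := z) (a := v) (fun x hx => hz x (by simpa using hx)) ⟨hvI, hvA⟩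
  · intro p1 p2 p3 p4 x z hP x1 x2 x3 x4 hz hzx
    obtain ⟨I, hI, hzI, hzA⟩ := himp z
    obtain ⟨h12, h23, h34, h13, h24, h14⟩ := hP
    -- the cycle p1 p2 p3 p4 x
    exact Pool.Agent.H85.BP.cd_core hbf hpr (a := p1) (b := p2) (c := p3) (d := p4) (e := x)
      (z := z) ⟨h12, h23, h34, x4.symm, x1, h13, h14, h24, fun h => x2 h.symm,
        fun h => x3 h.symm⟩ hz.1 hz.2.1 hz.2.2.1 hz.2.2.2 hzx (pri_of_mig hI)
      (by have := hI.five_le_card; omega) (mig_not_split hI) ⟨hzI, hzA⟩
  · intro H hnt hc hcc ⟨z0, hz0⟩ ⟨a0, ha0H, ha0⟩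
    classical
    by_contra hcon
    push Not at hcon
    obtain ⟨Hf, hHf⟩ : ∃ Hf : Finset V, (Hf : Set V) = H :=
      ⟨univ.filter (fun x => x ∈ H), by ext x; simp⟩
    subst hHf
    have h2 : 2 ≤ Hf.card := by
      obtain ⟨p, hp, q, hq, hpq⟩ := hnt
      have : 1 < Hf.card := Finset.one_lt_card.2 ⟨p, by simpa using hp, q, by simpa using hq, hpq⟩
      omega
    refine Pool.Agent.H85.BP.closure_lemma hbf hpr (H := Hf) ?_ ?_ h2 (z0 := z0) (a0 := a0)
      (fun x hx => hz0 x (by simpa using hx)) ⟨by simpa using ha0H,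
        fun x hx => ha0 x (by simpa using hx)⟩ ?_
    · intro T hT hne hcl
      have := hc (T : Set V) (by exact_mod_cast hT) (by exact_mod_cast hne) (by
        intro x hx y hy hxy
        by_contra hyT
        exact hcl x (by simpa using hx) y (by simpa using hy) (by simpa using hyT) hxy)
      exact_mod_cast this
    · intro T hT hne hcl
      have := hcc (T : Set V) (by exact_mod_cast hT) (by exact_mod_cast hne) (by
        intro x hx y hy hxy hnadj
        by_contra hyT
        exact hnadj (hcl x (by simpa using hx) y (by simpa using hy) (by simpa using hyT)))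
      exact_mod_cast this
    · intro x ⟨u, hu, hxu⟩ ⟨u', hu', hxu'⟩ hxH z hz a ha
      by_contra hcon2
      push Not at hcon2
      exact hcon x z a (by simpa using hxH)
        (fun h => hxu' (h u' (by simpa using hu'))) (fun h => h u (by simpa using hu) hxu)
        (fun y hy => hz y (by simpa using hy)) (by simpa using ha.1)
        (fun y hy => ha.2 y (by simpa using hy)) hcon2.1 hcon2.2

/-- no prism has an anticentre -/
theorem no_prism [Fintype V] {G : SimpleGraph V} (hb : BullFree G)
    (hp : PrimeG G) (x1 x2 x3 y1 y2 y3 a : V) (h : IsPrism G x1 x2 x3 y1 y2 y3)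
    (a1 : ¬ G.Adj a x1) (a2 : ¬ G.Adj a x2) (a3 : ¬ G.Adj a x3) (b1 : ¬ G.Adj a y1)
    (b2 : ¬ G.Adj a y2) (b3 : ¬ G.Adj a y3) : False := by
  obtain ⟨x12, x13, x23, y12, y13, y23, m1, m2, m3, n12, n13, n21, n23, n31, n32⟩ := h
  exact Pool.Agent.H85.BP.pr_core (bf_of_bullFree hb) (pri_of_primeG hp)
    (p := x1) (q := x2) (r := x3) (p' := y1) (q' := y2) (r' := y3) (a := a)
    ⟨x12, x23, x13, y12, y23, y13, m1, m2, m3, n12, n13, n21, n23, n31, n32⟩
    a1 a2 a3 b1 b2 b3

/-- the induction step -/
theorem main_step (V : Type) [Fintype V] [DecidableEq V] (G : SimpleGraph V) (hb : BullFree G)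
    (h3 : ThreeCol G)
    (hIH : ∀ (S : Finset V) (w : V → ℕ), S.Nonempty → S ≠ univ → (∀ v, 0 < w v) → Dv G w S)
    (w : V → ℕ) (hw : ∀ v, 0 < w v) (hV : Nonempty V) : Dv G w univ := by
  classical
  by_contra hnd
  have hp : PrimeG G := by
    intro H hnt hmod
    obtain ⟨Hf, hHf⟩ : ∃ Hf : Finset V, (Hf : Set V) = H :=
      ⟨univ.filter (fun x => x ∈ H), by ext x; simp⟩
    subst hHf
    have h2 : 2 ≤ Hf.card := by
      obtain ⟨p, hp, q, hq, hpq⟩ := hnt
      have : 1 < Hf.card := Finset.one_lt_card.2 ⟨p, by simpa using hp, q, by simpa using hq, hpq⟩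
      omega
    have := prime_of_not_dv hIH hw hnd (M := Hf) h2 (by
      intro v hv
      rcases hmod v (by simpa using hv) with h1 | h1
      · left; intro x hx; exact h1 x (by simpa using hx)
      · right; intro x hx; exact h1 x (by simpa using hx))
    rw [this]
    simp
  have himp := exists_mig_nonnbr hw hnd
  have hg : GemFree G := gemFree_of_gctx (gctx_of hb hp himp)
    (fun S hS hne w' hw' => hIH S w' hne hS hw') w hw hnd
  exact hnd (step6_dv hb hg hp h3 hw (exists_good hb hg (no_prism hb hp) himp hV))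

/-- Q1: the class of bull-free graphs is perfect-Pollyanna -/
theorem bullFree_perfectPollyanna : PerfectPollyanna bullFreeClass :=
  pollyanna_of_step (fun V _ _ G hb h3 hIH w hw hV => main_step V G hb h3 hIH w hw hV)

end BullPD

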