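import Pool.Agent.H8.BullGlue4

/-!
Bridge for weighted divisions over Mathlib notions.
-/

namespace BullPD

open Finset

/-- the largest weight of a clique inside the set `S` -/
noncomputable def cliqueWeight {V : Type*} (G : SimpleGraph V) (w : V → ℕ) (S : Set V) : ℕ :=
  sSup {n | ∃ K : Finset V, (K : Set V) ⊆ S ∧ G.IsClique (K : Set V) ∧ n = ∑ x ∈ K, w x}

theorem cliqueWeight_coe {V : Type*} [DecidableEq V] (G : SimpleGraph V) (w : V → ℕ)
    (T : Finset V) : cliqueWeight G w (T : Set V) = omW G w T := by
  apply le_antisymm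
  · refine csSup_le (show Set.Nonempty _ from ⟨0, ∅, by simp, by simp, by simp⟩) ?_
    rintro n ⟨K, hK, hc, rfl⟩
    exact le_omW (by exact_mod_cast hK) hc
  · obtain ⟨K, hK, hc, hs⟩ := exists_omW G w T
    apply le_csSup
    · refine ⟨omW G w T, ?_⟩
      rintro n ⟨K', hK', hc', rfl⟩
      exact le_omW (by exact_mod_cast hK') hc'
    · exact ⟨K, by exact_mod_cast hK, hc, hs.symm⟩

/-- perfectly weight divisible -/
def PWD {V : Type*} (G : SimpleGraph V) : Prop :=
  ∀ w : V → ℕ, (∀ v, 0 < w v) → ∀ S : Set V, S.Nonempty → ∃ P W : Set V, P ∪ W = S ∧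
    Disjoint P W ∧ IsPerfect (G.induce P) ∧ cliqueWeight G w W < cliqueWeight G w S

/-- a bull-free graph whose triangle-free induced subgraphs are 3-colourable is perfectly
weight divisible -/
theorem pwd_of_bullFree {V : Type} [Finite V] {G : SimpleGraph V} (hb : BullFree G)
    (h3 : ThreeCol G) : PWD G := by
  classical
  have := Fintype.ofFinite V
  intro w hw S hS
  have : Nonempty S := hS.to_subtype
  let j : S ↪ V := Function.Embedding.subtype (· ∈ S)
  have hD : Dv (G.comap j) (fun x => w (j x)) univ :=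
    core_of_step (fun V _ _ G hb h3 hIH w hw hV => main_step V G hb h3 hIH w hw hV)
      S (G.comap j) (hb.comap j) (h3.comap j) (fun x => w (j x)) (fun x => hw (j x))
      inferInstance
  have hD2 : Dv G w ((univ : Finset S).map j) := hD.map
  obtain ⟨A, hA, hAp, hlt⟩ := hD2
  have hSe : (((univ : Finset S).map j : Finset V) : Set V) = S := by
    ext x
    simp [j]
  refine ⟨(A : Set V), (((univ : Finset S).map j \ A : Finset V) : Set V), ?_, ?_, ?_, ?_⟩
  · rw [← Finset.coe_union, Finset.union_sdiff_of_subset hA, hSe]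
  · rw [Finset.disjoint_coe]
    exact Finset.disjoint_sdiff
  · exact isPerfect_of_perfOn (G := G)
      (SimpleGraph.Embedding.comap (Function.Embedding.subtype (· ∈ (A : Set V))) G)
      hAp.perfOn (fun x => x.2)
  · rw [cliqueWeight_coe]
    have h1 := hlt
    rw [← cliqueWeight_coe G w ((univ : Finset S).map j), hSe] at h1
    exact h1

/-- in a perfect graph without triangles the chromatic number is at most two -/
theorem colorable_two_of_isPerfect {W : Type*} [Finite W] {G : SimpleGraph W}
    (h : IsPerfect G) (hf : G.CliqueFree 3) : G.Colorable 2 := by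
  classical
  have := Fintype.ofFinite W
  have h1 := h Set.univ
  let e : G.induce (Set.univ : Set W) ≃g G := SimpleGraph.induceUnivIso G
  have h2 : (G.induce (Set.univ : Set W)).cliqueNum ≤ 2 := by
    by_contra hcon
    push Not at hcon
    obtain ⟨s, hs⟩ := (G.induce (Set.univ : Set W)).exists_isNClique_cliqueNum
    have hf' : (G.induce (Set.univ : Set W)).CliqueFree 3 :=
      hf.comap ⟨e.toEmbedding.toCopy⟩
    have : (G.induce (Set.univ : Set W)).CliqueFree (G.induce (Set.univ : Set W)).cliqueNum :=
      hf'.mono (by omega)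
    exact this s hs
  have h3 : (G.induce (Set.univ : Set W)).Colorable 2 := by
    rw [← SimpleGraph.chromaticNumber_le_iff_colorable, h1]
    exact_mod_cast h2
  exact SimpleGraph.Colorable.of_hom e.symm.toHom h3

/-- a triangle-free perfectly weight divisible graph is 3-colourable -/
theorem colorable_three_of_pwd {W : Type*} [Finite W] {G : SimpleGraph W}
    (h : PWD G) (hf : G.CliqueFree 3) : G.Colorable 3 := by
  classical
  have := Fintype.ofFinite W
  rcases isEmpty_or_nonempty W with hW | hW
  · exact ⟨SimpleGraph.Coloring.mk (fun x => (isEmptyElim x : Fin 3)) (fun {x} => isEmptyElim x)⟩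
  · obtain ⟨P, Q, hPQ, hdis, hP, hlt⟩ := h (fun _ => 1) (fun _ => Nat.one_pos) Set.univ
      Set.univ_nonempty
    have hf2 : omW G (fun _ => 1) (univ : Finset W) ≤ 2 := by
      rw [omW_le_iff]
      intro K _ hc
      by_contra hcon
      push Not at hcon
      have h3 : 3 ≤ K.card := by simp only [Finset.sum_const, smul_eq_mul, mul_one] at hcon; omega
      exact (hf.mono h3) K ⟨hc, rfl⟩
    have huniv : cliqueWeight G (fun _ => 1) (Set.univ : Set W) ≤ 2 := by
      rw [← Finset.coe_univ, cliqueWeight_coe]
      exact hf2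
    have hQst : ∀ x ∈ Q, ∀ y ∈ Q, ¬ G.Adj x y := by
      intro x hx y hy hxy
      obtain ⟨Qf, hQf⟩ : ∃ Qf : Finset W, (Qf : Set W) = Q := ⟨Q.toFinset, by simp⟩
      rw [← hQf, cliqueWeight_coe] at hlt
      have := pair_le_omW (G := G) (f := fun _ => 1) (S := Qf) (x := x) (y := y)
        (by rw [← Finset.mem_coe, hQf]; exact hx) (by rw [← Finset.mem_coe, hQf]; exact hy) hxy
      omega
    have hPf : (G.induce P).CliqueFree 3 :=
      hf.comap ⟨(SimpleGraph.Embedding.comap (Function.Embedding.subtype (· ∈ P)) G).toCopy⟩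
    obtain ⟨c⟩ := colorable_two_of_isPerfect hP hPf
    refine ⟨SimpleGraph.Coloring.mk
      (fun x => if hx : x ∈ P then (Fin.castSucc (c ⟨x, hx⟩) : Fin 3) else Fin.last 2) ?_⟩
    intro x y hxy
    have hcov : ∀ z, z ∉ P → z ∈ Q := by
      intro z hz
      have : z ∈ P ∪ Q := by rw [hPQ]; trivial
      exact this.resolve_left hz
    by_cases hx : x ∈ P
    · by_cases hy : y ∈ P
      · simp only [hx, hy, dif_pos]
        intro heq
        have h1 := Fin.castSucc_injective _ heq
        have hadj : (G.induce P).Adj ⟨x, hx⟩ ⟨y, hy⟩ := hxy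
        exact c.valid hadj h1
      · simp only [hx, hy, dif_pos, dif_neg, not_false_eq_true]
        exact (Fin.castSucc_lt_last _).ne
    · by_cases hy : y ∈ P
      · simp only [hx, hy, dif_pos, dif_neg, not_false_eq_true]
        exact (Fin.castSucc_lt_last _).ne'
      · exact absurd hxy (hQst x (hcov x hx) y (hcov y hy))

/-- minimally non-perfectly weight divisible -/
def MNWD {V : Type*} (G : SimpleGraph V) : Prop :=
  ¬ PWD G ∧ ∀ S : Set V, S ≠ Set.univ → PWD (G.induce S)

/-- Q1 of MP_1d20d9_co -/
theorem mnwd_cliqueFree {V : Type} [Finite V] {G : SimpleGraph V} (hb : BullFree G)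
    (h : MNWD G) : G.CliqueFree 3 := by
  classical
  by_contra hcon
  apply h.1
  apply pwd_of_bullFree hb
  intro X hX
  -- `X` is triangle-free, hence proper
  have hXf : (G.induce (X : Set V)).CliqueFree 3 := by
    intro s hs
    rw [SimpleGraph.is3Clique_iff] at hs
    obtain ⟨a, b, c, hab, hac, hbc, _⟩ := hs
    exact hX a.1 (by simp) b.1 (by simp) c.1 (by simp)
      hab hbc hac
  have hne : (X : Set V) ≠ Set.univ := by
    intro he
    apply hcon
    intro s hs
    rw [SimpleGraph.is3Clique_iff] at hs
    obtain ⟨a, b, c, hab, hac, hbc, _⟩ := hs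
    have hm : ∀ z, z ∈ X := fun z => by rw [← Finset.mem_coe, he]; trivial
    exact hX a (hm a) b (hm b) c (hm c) hab hbc hac
  obtain ⟨c⟩ := colorable_three_of_pwd (h.2 (X : Set V) hne) hXf
  refine ⟨fun x => if hx : x ∈ X then c ⟨x, by simpa using hx⟩ else 0, ?_⟩
  intro x hx y hy hxy
  simp only [hx, hy, dif_pos]
  exact c.valid (show (G.induce (X : Set V)).Adj ⟨x, by simpa using hx⟩ ⟨y, by simpa using hy⟩
    from hxy)

end BullPD
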