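import Pool.Agent.H8.BullPerf1

/-!
Perfection implies weighted perfection (replication lemma in weighted form).
-/

namespace BullPD

open Finset

variable {V : Type*} [DecidableEq V]

theorem PerfOn.wperf_aux {G : SimpleGraph V} {A : Finset V} (h : PerfOn G A) :
    ∀ (n : ℕ) (f : V → ℕ), ∑ x ∈ A, f x = n →
      ∃ c : V → Finset ℕ, MCol G f A (range (omW G f A)) c := by
  intro n
  induction n using Nat.strong_induction_on with
  | _ n ih =>
  intro f hn
  by_cases h1 : ∀ x ∈ A, f x ≤ 1
  · obtain ⟨c, hc1, hc2⟩ := h (A.filter (fun x => f x = 1)) (filter_subset _ _)
    have hle : omW G (fun _ => 1) (A.filter (fun x => f x = 1)) ≤ omW G f A := by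
      apply omW_mono (filter_subset _ _)
      intro x hx
      rw [Finset.mem_filter] at hx
      exact hx.2.ge
    refine ⟨fun x => if f x = 1 then {c x} else ∅, ?_, ?_⟩
    · intro x hx
      by_cases hfx : f x = 1
      · simp only [hfx, if_true, Finset.card_singleton, true_and]
        intro n hn
        rw [Finset.mem_singleton] at hn
        subst hn
        rw [Finset.mem_range]
        exact lt_of_lt_of_le (hc1 x (Finset.mem_filter.2 ⟨hx, hfx⟩)) hle
      · have : f x = 0 := by have := h1 x hx; omega
        simp [this]
    · intro x hx y hy hxy
      by_cases hfx : f x = 1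
      · by_cases hfy : f y = 1
        · simp only [hfx, hfy, if_true]
          rw [Finset.disjoint_singleton]
          exact hc2 x (Finset.mem_filter.2 ⟨hx, hfx⟩) y (Finset.mem_filter.2 ⟨hy, hfy⟩) hxy
        · simp [hfy]
      · simp [hfx]
  · push Not at h1
    obtain ⟨x, hx, hfx⟩ := h1
    let f' : V → ℕ := fun y => f y - if y = x then 1 else 0
    have hff' : ∀ y, f y = f' y + if y = x then 1 else 0 := by
      intro y
      by_cases hy : y = x
      · subst hy; simp [f']; omega
      · simp [f', hy]
    have hsum : ∀ K : Finset V, ∑ y ∈ K, f y = ∑ y ∈ K, f' y + if x ∈ K then 1 else 0 := by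
      intro K
      rw [Finset.sum_congr rfl (fun y _ => hff' y), Finset.sum_add_distrib, Finset.sum_ite_eq']
    have hf'x : 1 ≤ f' x := by simp [f']; omega
    have hlt : ∑ y ∈ A, f' y < n := by
      have := hsum A
      simp only [hx, if_true] at this
      omega
    obtain ⟨c', hc'⟩ := ih _ hlt f' rfl
    have hk'k : omW G f' A ≤ omW G f A :=
      omW_mono (Finset.Subset.refl A) (fun y _ => by rw [hff' y]; exact Nat.le_add_right _ _)
    have hkk' : omW G f A ≤ omW G f' A + 1 := by
      rw [omW_le_iff]
      intro K hK hc
      rw [hsum K]
      have := le_omW (f := f') hK hc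
      split_ifs <;> omega
    rcases Nat.lt_or_ge (omW G f' A) (omW G f A) with hk | hk
    · -- a new colour
      have hk1 : omW G f A = omW G f' A + 1 := by omega
      refine ⟨fun y => if y = x then insert (omW G f' A) (c' y) else c' y, ?_, ?_⟩
      · intro y hy
        obtain ⟨h2, h3⟩ := hc'.1 y hy
        by_cases hyx : y = x
        · subst hyx
          simp only [if_true]
          have hnot : omW G f' A ∉ c' y := fun hh => by
            have := h3 hh
            simp at this
          refine ⟨?_, ?_⟩
          · rw [Finset.card_insert_of_notMem hnot, h2, hff' y]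
            simp
          · intro m hm
            rw [Finset.mem_insert] at hm
            rw [Finset.mem_range, hk1]
            rcases hm with rfl | hm
            · omega
            · have := Finset.mem_range.1 (h3 hm); omega
        · simp only [hyx, if_false]
          refine ⟨by rw [h2, hff' y]; simp [hyx], ?_⟩
          exact h3.trans (Finset.range_subset_range.2 hk'k)
      · intro y hy z hz hyz
        have hd := hc'.2 y hy z hz hyz
        have hny : omW G f' A ∉ c' y := fun hh => by
          have := (hc'.1 y hy).2 hh
          simp at this
        have hnz : omW G f' A ∉ c' z := fun hh => by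
          have := (hc'.1 z hz).2 hh
          simp at this
        by_cases hyx : y = x
        · have hzx : z ≠ x := by rintro rfl; subst hyx; exact hyz.ne rfl
          simp only [hyx, hzx, if_true, if_false]
          rw [Finset.disjoint_insert_left]
          exact ⟨hnz, by rw [← hyx]; exact hd⟩
        · by_cases hzx : z = x
          · simp only [hyx, hzx, if_true, if_false]
            rw [Finset.disjoint_insert_right]
            exact ⟨hny, by rw [← hzx]; exact hd⟩
          · simpa only [hyx, hzx, if_false] using hd
    · -- same clique number
      have hkeq : omW G f A = omW G f' A := le_antisymm hk hk'k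
      have hcx : (c' x).Nonempty := by
        rw [← Finset.card_pos, (hc'.1 x hx).1]; omega
      obtain ⟨col, hcol⟩ := hcx
      have hkpos : 0 < omW G f A := by
        have := (hc'.1 x hx).2 hcol
        rw [Finset.mem_range] at this
        omega
      let g : V → ℕ := fun y => f' y - if (col ∈ c' y ∧ y ≠ x) then 1 else 0
      have hgf : ∀ y ∈ A, f' y = g y + if (col ∈ c' y ∧ y ≠ x) then 1 else 0 := by
        intro y hy
        by_cases hcy : col ∈ c' y ∧ y ≠ x
        · have : 1 ≤ f' y := by
            rw [← (hc'.1 y hy).1]
            exact Finset.card_pos.2 ⟨col, hcy.1⟩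
          simp only [g, hcy, if_true, ne_eq, not_false_eq_true, and_self]
          omega
        · simp [g, hcy]
      have hgle : ∀ y, g y ≤ f' y := fun y => Nat.sub_le _ _
      have hgom : omW G g A ≤ omW G f A - 1 := by
        rw [omW_le_iff]
        intro K hK hc
        have hgs : ∑ y ∈ K, g y ≤ ∑ y ∈ K, f' y := Finset.sum_le_sum (fun y _ => hgle y)
        have hfs := le_omW (f := f) hK hc
        rw [hsum K] at hfs
        by_cases hxK : x ∈ K
        · simp only [hxK, if_true] at hfs
          omega
        · simp only [hxK, if_false] at hfs
          rcases Nat.lt_or_ge (∑ y ∈ K, f' y) (omW G f A) with h4 | h4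
          · omega
          · -- all colours are used on K
            have h5 : ∑ y ∈ K, f' y = omW G f' A := by omega
            have hdis : ∀ y ∈ K, ∀ z ∈ K, y ≠ z → Disjoint (c' y) (c' z) := by
              intro y hy z hz hyz
              exact hc'.2 y (hK hy) z (hK hz) (hc hy hz hyz)
            have hcardU : (K.biUnion c').card = omW G f' A := by
              rw [Finset.card_biUnion hdis, ← h5]
              exact Finset.sum_congr rfl (fun y hy => (hc'.1 y (hK hy)).1)
            have hsub : K.biUnion c' ⊆ range (omW G f' A) := by
              intro m hm
              obtain ⟨y, hy, hmy⟩ := Finset.mem_biUnion.1 hm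
              exact (hc'.1 y (hK hy)).2 hmy
            have heq : K.biUnion c' = range (omW G f' A) :=
              Finset.eq_of_subset_of_card_le hsub (by rw [hcardU]; simp)
            have hcolm : col ∈ K.biUnion c' := by
              rw [heq]; exact (hc'.1 x hx).2 hcol
            obtain ⟨y, hy, hcy⟩ := Finset.mem_biUnion.1 hcolm
            have hyx : y ≠ x := by rintro rfl; exact hxK hy
            have hlt2 : ∑ z ∈ K, g z < ∑ z ∈ K, f' z := by
              apply Finset.sum_lt_sum (fun z _ => hgle z)
              refine ⟨y, hy, ?_⟩
              have := hgf y (hK hy)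
              simp only [hcy, hyx, ne_eq, not_false_eq_true, and_self, if_true] at this
              omega
            omega
      have hgsum : ∑ y ∈ A, g y < n := lt_of_le_of_lt (Finset.sum_le_sum (fun y _ => hgle y)) hlt
      obtain ⟨c'', hc''⟩ := ih _ hgsum g rfl
      refine ⟨fun y => if (col ∈ c' y) then insert (omW G f A - 1) (c'' y) else c'' y, ?_, ?_⟩
      · intro y hy
        obtain ⟨h2, h3⟩ := hc''.1 y hy
        have h3' : c'' y ⊆ range (omW G f A - 1) := h3.trans (Finset.range_subset_range.2 hgom)
        have hnot : omW G f A - 1 ∉ c'' y := fun hh => by
          have := h3' hh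
          simp at this
        by_cases hcy : col ∈ c' y
        · simp only [hcy, if_true]
          refine ⟨?_, ?_⟩
          · rw [Finset.card_insert_of_notMem hnot, h2, hff' y, hgf y hy]
            by_cases hyx : y = x
            · simp [hcy, hyx]
            · simp [hcy, hyx]
          · intro m hm
            rw [Finset.mem_insert] at hm
            rw [Finset.mem_range]
            rcases hm with rfl | hm
            · omega
            · have := Finset.mem_range.1 (h3' hm); omega
        · simp only [hcy, if_false]
          have hyx : y ≠ x := by rintro rfl; exact hcy hcol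
          refine ⟨?_, ?_⟩
          · rw [h2, hff' y, hgf y hy]; simp [hcy, hyx]
          · exact h3'.trans (Finset.range_subset_range.2 (Nat.sub_le _ _))
      · intro y hy z hz hyz
        have hd := hc''.2 y hy z hz hyz
        have hd' := hc'.2 y hy z hz hyz
        have hny : omW G f A - 1 ∉ c'' y := fun hh => by
          have := Finset.range_subset_range.2 hgom ((hc''.1 y hy).2 hh)
          simp at this
        have hnz : omW G f A - 1 ∉ c'' z := fun hh => by
          have := Finset.range_subset_range.2 hgom ((hc''.1 z hz).2 hh)
          simp at this
        by_cases hcy : col ∈ c' y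
        · have hcz : col ∉ c' z := Finset.disjoint_left.1 hd' hcy
          simp only [hcy, hcz, if_true, if_false]
          rw [Finset.disjoint_insert_left]
          exact ⟨hnz, hd⟩
        · by_cases hcz : col ∈ c' z
          · simp only [hcy, hcz, if_true, if_false]
            rw [Finset.disjoint_insert_right]
            exact ⟨hny, hd⟩
          · simpa only [hcy, hcz, if_false] using hd

/-- perfection implies weighted perfection -/
theorem PerfOn.wperf {G : SimpleGraph V} {A : Finset V} (h : PerfOn G A) : WPerf G A :=
  fun f => h.wperf_aux _ f rfl

theorem wperf_iff_perfOn {G : SimpleGraph V} {A : Finset V} : WPerf G A ↔ PerfOn G A :=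
  ⟨fun h => h.perfOn, fun h => h.wperf⟩

end BullPD
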