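import Pool.Agent.H8.BullPerf2

/-!
Substitution lemma (weighted) and the division of a graph with a module.
-/

namespace BullPD

open Finset

variable {V : Type*} [DecidableEq V]

/-- replacing the part of a clique inside a module by another clique of the module -/
theorem clique_replace {G : SimpleGraph V} {K B : Finset V} {h : V} (hK : G.IsClique (K : Set V))
    (hB : G.IsClique (B : Set V)) (hmod : ∀ x ∈ K, x ≠ h → ∀ y ∈ B, G.Adj x h → G.Adj x y)
    (hhK : h ∈ K) : G.IsClique ((K.erase h ∪ B : Finset V) : Set V) := by
  intro a ha b hb hab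
  rw [Finset.mem_coe, Finset.mem_union, Finset.mem_erase] at ha hb
  rcases ha with ⟨ha1, ha2⟩ | ha <;> rcases hb with ⟨hb1, hb2⟩ | hb
  · exact hK ha2 hb2 hab
  · exact hmod a ha2 ha1 b hb (hK ha2 hhK ha1)
  · exact (hmod b hb2 hb1 a ha (hK hb2 hhK hb1)).symm
  · exact hB ha hb hab

/-- Lovasz' substitution lemma in weighted form -/
theorem WPerf.substitute {G : SimpleGraph V} {A0 B : Finset V} {h : V}
    (hA : WPerf G (insert h A0)) (hB : WPerf G B) (hh : h ∉ A0) (hdisj : Disjoint A0 B)
    (hmod : ∀ x ∈ A0, ∀ y ∈ B, (G.Adj x y ↔ G.Adj x h)) : WPerf G (A0 ∪ B) := by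
  intro f
  let f' : V → ℕ := fun y => if y = h then omW G f B else f y
  have hom : omW G f' (insert h A0) ≤ omW G f (A0 ∪ B) := by
    rw [omW_le_iff]
    intro K hK hc
    have hsub : K.erase h ⊆ A0 := by
      intro y hy
      rw [Finset.mem_erase] at hy
      rcases Finset.mem_insert.1 (hK hy.2) with h1 | h1
      · exact absurd h1 hy.1
      · exact h1
    have hsum : ∑ y ∈ K.erase h, f' y = ∑ y ∈ K.erase h, f y := by
      apply Finset.sum_congr rfl
      intro y hy
      rw [Finset.mem_erase] at hy
      simp [f', hy.1]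
    by_cases hhK : h ∈ K
    · obtain ⟨KB, hKB, hcB, hsB⟩ := exists_omW G f B
      have hcl : G.IsClique ((K.erase h ∪ KB : Finset V) : Set V) := by
        apply clique_replace hc hcB _ hhK
        intro x hx hxh y hy hadj
        exact (hmod x (hsub (Finset.mem_erase.2 ⟨hxh, hx⟩)) y (hKB hy)).2 hadj
      have hle := le_omW (f := f) (S := A0 ∪ B) (Finset.union_subset_union hsub hKB) hcl
      rw [Finset.sum_union (Finset.disjoint_of_subset_left hsub
        (Finset.disjoint_of_subset_right hKB hdisj)), hsB] at hle
      rw [← Finset.add_sum_erase _ _ hhK, hsum]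
      have : f' h = omW G f B := by simp [f']
      omega
    · rw [← Finset.erase_eq_of_notMem hhK, hsum]
      exact le_omW (hsub.trans Finset.subset_union_left) (hc.subset (by simp))
  obtain ⟨c', hc'⟩ := hA.exists_col_range f' hom
  obtain ⟨hc1, hc2⟩ := hc'
  have hch := hc1 h (Finset.mem_insert_self _ _)
  obtain ⟨cB, hcB1, hcB2⟩ := hB.exists_col f (C := c' h) (by rw [hch.1]; simp [f'])
  refine ⟨fun y => if y ∈ B then cB y else c' y, ?_, ?_⟩
  · intro y hy
    by_cases hyB : y ∈ B
    · simp only [hyB, if_true]
      exact ⟨(hcB1 y hyB).1, (hcB1 y hyB).2.trans hch.2⟩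
    · simp only [hyB, if_false]
      have hyA : y ∈ A0 := by
        rcases Finset.mem_union.1 hy with h1 | h1
        · exact h1
        · exact absurd h1 hyB
      have hyh : y ≠ h := by rintro rfl; exact hh hyA
      have := hc1 y (Finset.mem_insert_of_mem hyA)
      simpa [f', hyh] using this
  · intro y hy z hz hyz
    by_cases hyB : y ∈ B
    · by_cases hzB : z ∈ B
      · simp only [hyB, hzB, if_true]
        exact hcB2 y hyB z hzB hyz
      · have hzA : z ∈ A0 := by
          rcases Finset.mem_union.1 hz with h1 | h1
          · exact h1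
          · exact absurd h1 hzB
        simp only [hyB, hzB, if_true, if_false]
        have hd : Disjoint (c' z) (c' h) := hc2 z (Finset.mem_insert_of_mem hzA) h
          (Finset.mem_insert_self _ _) ((hmod z hzA y hyB).1 hyz.symm)
        exact (Finset.disjoint_of_subset_right (hcB1 y hyB).2 hd).symm
    · have hyA : y ∈ A0 := by
        rcases Finset.mem_union.1 hy with h1 | h1
        · exact h1
        · exact absurd h1 hyB
      by_cases hzB : z ∈ B
      · simp only [hyB, hzB, if_true, if_false]
        have hd : Disjoint (c' y) (c' h) := hc2 y (Finset.mem_insert_of_mem hyA) h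
          (Finset.mem_insert_self _ _) ((hmod y hyA z hzB).1 hyz)
        exact Finset.disjoint_of_subset_right (hcB1 z hzB).2 hd
      · have hzA : z ∈ A0 := by
          rcases Finset.mem_union.1 hz with h1 | h1
          · exact h1
          · exact absurd h1 hzB
        simp only [hyB, hzB, if_false]
        exact hc2 y (Finset.mem_insert_of_mem hyA) z (Finset.mem_insert_of_mem hzA) hyz

/-- a division of `S` with weights `w` -/
def Dv (G : SimpleGraph V) (w : V → ℕ) (S : Finset V) : Prop :=
  ∃ A ⊆ S, WPerf G A ∧ omW G w (S \ A) < omW G w S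

/-- dividing a graph with a module -/
theorem Dv.of_module {G : SimpleGraph V} {w : V → ℕ} {S H : Finset V} {h : V}
    (hh : h ∈ H) (hHS : H ⊆ S)
    (hmod : ∀ x ∈ S, x ∉ H → ∀ y ∈ H, (G.Adj x y ↔ G.Adj x h)) (h1 : Dv G w H)
    (h2 : Dv G (fun y => if y = h then omW G w H else w y) (insert h (S \ H))) : Dv G w S := by
  obtain ⟨AH, hAH, hAHp, hAHw⟩ := h1
  obtain ⟨A', hA', hA'p, hA'w⟩ := h2
  set w' : V → ℕ := fun y => if y = h then omW G w H else w y with hw'
  have hwh : w' h = omW G w H := by simp [hw']
  have hwn : ∀ y, y ≠ h → w' y = w y := fun y hy => by simp [hw', hy]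
  -- the clique number of the contraction
  have hom : omW G w' (insert h (S \ H)) ≤ omW G w S := by
    rw [omW_le_iff]
    intro K hK hc
    have hsub : K.erase h ⊆ S \ H := by
      intro y hy
      rw [Finset.mem_erase] at hy
      rcases Finset.mem_insert.1 (hK hy.2) with h1 | h1
      · exact absurd h1 hy.1
      · exact h1
    have hsum : ∑ y ∈ K.erase h, w' y = ∑ y ∈ K.erase h, w y := by
      apply Finset.sum_congr rfl
      intro y hy
      rw [Finset.mem_erase] at hy
      exact hwn y hy.1
    by_cases hhK : h ∈ K
    · obtain ⟨KB, hKB, hcB, hsB⟩ := exists_omW G w H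
      have hcl : G.IsClique ((K.erase h ∪ KB : Finset V) : Set V) := by
        apply clique_replace hc hcB _ hhK
        intro x hx hxh y hy hadj
        have hx' := hsub (Finset.mem_erase.2 ⟨hxh, hx⟩)
        rw [Finset.mem_sdiff] at hx'
        exact (hmod x hx'.1 hx'.2 y (hKB hy)).2 hadj
      have hle := le_omW (f := w) (S := S)
        (Finset.union_subset (hsub.trans Finset.sdiff_subset) (hKB.trans hHS)) hcl
      rw [Finset.sum_union (Finset.disjoint_of_subset_left hsub
        (Finset.disjoint_of_subset_right hKB Finset.sdiff_disjoint)), hsB] at hle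
      rw [← Finset.add_sum_erase _ _ hhK, hsum, hwh]
      omega
    · rw [← Finset.erase_eq_of_notMem hhK, hsum]
      exact le_omW (hsub.trans Finset.sdiff_subset) (hc.subset (by simp))
  -- replace the part in `H` of a clique by `h`
  have hins : ∀ K : Finset V, K ⊆ S → G.IsClique (K : Set V) → (K ∩ H).Nonempty →
      G.IsClique ((insert h (K \ H) : Finset V) : Set V) := by
    intro K hK hc ⟨y, hy⟩
    rw [Finset.mem_inter] at hy
    intro a ha b hb hab
    rw [Finset.mem_coe, Finset.mem_insert, Finset.mem_sdiff] at ha hb
    rcases ha with rfl | ⟨ha1, ha2⟩ <;> rcases hb with rfl | ⟨hb1, hb2⟩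
    · exact absurd rfl hab
    · have hby : b ≠ y := by rintro rfl; exact hb2 hy.2
      exact ((hmod b (hK hb1) hb2 y hy.2).1 (hc hb1 hy.1 hby)).symm
    · have hay : a ≠ y := by rintro rfl; exact ha2 hy.2
      exact (hmod a (hK ha1) ha2 y hy.2).1 (hc ha1 hy.1 hay)
    · exact hc ha1 hb1 hab
  have hsplit : ∀ K : Finset V, ∑ y ∈ K, w y = ∑ y ∈ K \ H, w y + ∑ y ∈ K ∩ H, w y := by
    intro K
    rw [← Finset.sum_union (Finset.disjoint_sdiff_inter K H), Finset.sdiff_union_inter]
  have hinsum : ∀ K : Finset V, ∑ y ∈ insert h (K \ H), w' y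
      = omW G w H + ∑ y ∈ K \ H, w y := by
    intro K
    rw [Finset.sum_insert (by simp [hh]), hwh]
    congr 1
    apply Finset.sum_congr rfl
    intro y hy
    rw [Finset.mem_sdiff] at hy
    exact hwn y (by rintro rfl; exact hy.2 hh)
  have hsd : ∀ K : Finset V, K ⊆ S \ H → ∑ y ∈ K, w' y = ∑ y ∈ K, w y := by
    intro K hK
    apply Finset.sum_congr rfl
    intro y hy
    have := hK hy
    rw [Finset.mem_sdiff] at this
    exact hwn y (by rintro rfl; exact this.2 hh)
  have hpos : 0 < omW G w S := by omega
  by_cases hhA : h ∈ A'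
  · refine ⟨A'.erase h ∪ AH, ?_, ?_, ?_⟩
    · apply Finset.union_subset _ (hAH.trans hHS)
      intro y hy
      rw [Finset.mem_erase] at hy
      rcases Finset.mem_insert.1 (hA' hy.2) with h1 | h1
      · exact absurd h1 hy.1
      · exact (Finset.mem_sdiff.1 h1).1
    · have hsub : A'.erase h ⊆ S \ H := by
        intro y hy
        rw [Finset.mem_erase] at hy
        rcases Finset.mem_insert.1 (hA' hy.2) with h1 | h1
        · exact absurd h1 hy.1
        · exact h1
      apply WPerf.substitute (h := h) (by rwa [Finset.insert_erase hhA]) hAHp (by simp)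
        (Finset.disjoint_of_subset_left hsub
          (Finset.disjoint_of_subset_right hAH Finset.sdiff_disjoint))
      intro x hx y hy
      have := hsub hx
      rw [Finset.mem_sdiff] at this
      exact hmod x this.1 this.2 y (hAH hy)
    · refine lt_of_le_of_lt (b := omW G w S - 1) ?_ (by omega)
      rw [omW_le_iff]
      intro K hK hc
      have hKS : K ⊆ S := hK.trans Finset.sdiff_subset
      rcases (K ∩ H).eq_empty_or_nonempty with he | hne
      · have hKH : K ⊆ insert h (S \ H) \ A' := by
          intro y hy
          have hyH : y ∉ H := fun hyH => by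
            have : y ∈ K ∩ H := Finset.mem_inter.2 ⟨hy, hyH⟩
            rw [he] at this; simp at this
          have hyA := (Finset.mem_sdiff.1 (hK hy)).2
          rw [Finset.mem_sdiff]
          refine ⟨Finset.mem_insert_of_mem (Finset.mem_sdiff.2 ⟨hKS hy, hyH⟩), ?_⟩
          intro hyA'
          apply hyA
          apply Finset.mem_union_left
          exact Finset.mem_erase.2 ⟨by rintro rfl; exact hyH hh, hyA'⟩
        have h3 := le_omW (f := w') hKH hc
        rw [hsd K (by
          intro y hy
          have hyH : y ∉ H := fun hyH => by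
            have : y ∈ K ∩ H := Finset.mem_inter.2 ⟨hy, hyH⟩
            rw [he] at this; simp at this
          exact Finset.mem_sdiff.2 ⟨hKS hy, hyH⟩)] at h3
        omega
      · have h3 := le_omW (f := w) (S := H \ AH) (K := K ∩ H) (by
          intro y hy
          rw [Finset.mem_inter] at hy
          rw [Finset.mem_sdiff]
          refine ⟨hy.2, fun hyA => (Finset.mem_sdiff.1 (hK hy.1)).2 (Finset.mem_union_right _ hyA)⟩)
          (hc.subset (by simp))
        have h4 := le_omW (f := w') (S := insert h (S \ H)) (K := insert h (K \ H))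
          (Finset.insert_subset_insert _ (Finset.sdiff_subset_sdiff hKS (Finset.Subset.refl H)))
          (hins K hKS hc hne)
        rw [hinsum K] at h4
        rw [hsplit K]
        omega
  · refine ⟨A', ?_, hA'p, ?_⟩
    · intro y hy
      rcases Finset.mem_insert.1 (hA' hy) with h1 | h1
      · exact absurd (h1 ▸ hy) hhA
      · exact (Finset.mem_sdiff.1 h1).1
    · refine lt_of_le_of_lt (b := omW G w S - 1) ?_ (by omega)
      rw [omW_le_iff]
      intro K hK hc
      have hKS : K ⊆ S := hK.trans Finset.sdiff_subset
      rcases (K ∩ H).eq_empty_or_nonempty with he | hne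
      · have hKSH : K ⊆ S \ H := by
          intro y hy
          have hyH : y ∉ H := fun hyH => by
            have : y ∈ K ∩ H := Finset.mem_inter.2 ⟨hy, hyH⟩
            rw [he] at this; simp at this
          exact Finset.mem_sdiff.2 ⟨hKS hy, hyH⟩
        have hKH : K ⊆ insert h (S \ H) \ A' := by
          intro y hy
          rw [Finset.mem_sdiff]
          exact ⟨Finset.mem_insert_of_mem (hKSH hy), (Finset.mem_sdiff.1 (hK hy)).2⟩
        have h3 := le_omW (f := w') hKH hc
        rw [hsd K hKSH] at h3
        omega
      · have h3 := le_omW (f := w) (S := H) (K := K ∩ H) Finset.inter_subset_right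
          (hc.subset (by simp))
        have h4 := le_omW (f := w') (S := insert h (S \ H) \ A') (K := insert h (K \ H)) (by
          intro y hy
          rw [Finset.mem_insert] at hy
          rw [Finset.mem_sdiff]
          rcases hy with rfl | hy
          · exact ⟨Finset.mem_insert_self _ _, hhA⟩
          · rw [Finset.mem_sdiff] at hy
            exact ⟨Finset.mem_insert_of_mem (Finset.mem_sdiff.2 ⟨hKS hy.1, hy.2⟩),
              (Finset.mem_sdiff.1 (hK hy.1)).2⟩)
          (hins K hKS hc hne)
        rw [hinsum K] at h4
        rw [hsplit K]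
        omega

end BullPD
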